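import Pool.Agent.R395.Nm.Th

/-! # Finite orbits -/

namespace Pool.Agent.R395.Nm

open Complex UpperHalfPlane ModularForm
open scoped Real MatrixGroups
open Pool.Agent.TH825.Nahm (IsModularFn)

noncomputable section

theorem modular_of_finite {f : ℍ → ℂ} (X : Set (ℍ → ℂ)) (hX : X.Finite)
    (h : ∀ γ : SL(2, ℤ), (fun τ : ℍ => f (γ • τ)) ∈ X) : IsModularFn f := by
  let _ := arrowAction (G := SL(2, ℤ)) (A := ℍ) (B := ℂ)
  refine ⟨MulAction.stabilizer SL(2, ℤ) f, ⟨?_⟩, ?_⟩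
  · rw [MulAction.index_stabilizer]
    have hsub : MulAction.orbit SL(2, ℤ) f ⊆ X := by
      rintro _ ⟨g, rfl⟩
      exact h g⁻¹
    have hfin := hX.subset hsub
    exact ((Set.ncard_pos hfin).2 ⟨f, MulAction.mem_orbit_self f⟩).ne'
  · intro γ hγ τ
    have h1 : γ • f = f := hγ
    have h2 : f (γ⁻¹ • (γ • τ)) = f (γ • τ) := congrFun h1 (γ • τ)
    rw [← h2, inv_smul_smul]

/-- `e(k/(24N²)) G(u/N, v/N, ·)` -/
def Phi (N : ℕ) (k u v : ℤ) (τ : ℍ) : ℂ :=
  cexp (2 * π * Complex.I * (k / (24 * (N : ℂ) ^ 2))) * Gf ((u : ℝ) / N) ((v : ℝ) / N) τ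

def PhiSet (N : ℕ) : Set (ℍ → ℂ) := {f | ∃ k u v : ℤ, f = Phi N k u v}

theorem Phi_k (N : ℕ) (hN : 0 < N) (k u v : ℤ) : Phi N (k + 24 * (N : ℤ) ^ 2) u v = Phi N k u v := by
  have hN' : (N : ℂ) ≠ 0 := by exact_mod_cast hN.ne'
  ext τ
  unfold Phi
  congr 1
  rw [Complex.exp_eq_exp_iff_exists_int]
  refine ⟨1, ?_⟩
  push_cast
  field_simp

theorem Phi_u (N : ℕ) (hN : 0 < N) (k u v : ℤ) : Phi N k (u + N) v = Phi N k u v := by
  have hN' : (N : ℝ) ≠ 0 := by exact_mod_cast hN.ne'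
  ext τ
  unfold Phi
  congr 1
  have : (((u + N : ℤ) : ℝ) / N) = (u : ℝ) / N + 1 := by push_cast; field_simp
  rw [this, Gf_add_one_left]

theorem Phi_v (N : ℕ) (hN : 0 < N) (k u v : ℤ) :
    Phi N k u (v + N) = Phi N (k - 24 * N * u) u v := by
  have hN' : (N : ℝ) ≠ 0 := by exact_mod_cast hN.ne'
  have hNC : (N : ℂ) ≠ 0 := by exact_mod_cast hN.ne'
  ext τ
  unfold Phi
  have : (((v + N : ℤ) : ℝ) / N) = (v : ℝ) / N + 1 := by push_cast; field_simp
  rw [this, Gf_add_one_right, ← mul_assoc, ← Complex.exp_add]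
  congr 2
  push_cast
  field_simp
  ring

theorem Phi_k_mul (N : ℕ) (hN : 0 < N) (k u v t : ℤ) :
    Phi N (k + t * (24 * (N : ℤ) ^ 2)) u v = Phi N k u v := by
  induction t using Int.induction_on with
  | zero => simp
  | succ i ih => rw [← ih, ← Phi_k N hN (k + i * (24 * (N : ℤ) ^ 2))]; congr 1; ring
  | pred i ih => rw [← ih, ← Phi_k N hN (k + (-i - 1) * (24 * (N : ℤ) ^ 2))]; congr 1; ring

theorem Phi_u_mul (N : ℕ) (hN : 0 < N) (k u v t : ℤ) :
    Phi N k (u + t * N) v = Phi N k u v := by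
  induction t using Int.induction_on with
  | zero => simp
  | succ i ih => rw [← ih, ← Phi_u N hN k (u + i * N)]; congr 1; ring
  | pred i ih => rw [← ih, ← Phi_u N hN k (u + (-i - 1) * N)]; congr 1; ring

theorem Phi_v_mul (N : ℕ) (hN : 0 < N) (k u v t : ℤ) :
    Phi N k u (v + t * N) = Phi N (k - t * (24 * N * u)) u v := by
  induction t using Int.induction_on generalizing k with
  | zero => simp
  | succ i ih =>
      have : v + ((i : ℤ) + 1) * N = (v + i * N) + N := by ring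
      rw [this, Phi_v N hN, ih]; congr 1; ring
  | pred i ih =>
      have h1 := ih (k + 24 * N * u)
      have : v + -(i : ℤ) * N = (v + (-(i : ℤ) - 1) * N) + N := by ring
      rw [this, Phi_v N hN, add_sub_cancel_right] at h1
      rw [h1]; congr 1; ring

theorem PhiSet_finite (N : ℕ) (hN : 0 < N) : (PhiSet N).Finite := by
  have hNz : (N : ℤ) ≠ 0 := by exact_mod_cast hN.ne'
  have : PhiSet N ⊆ (fun p : ℤ × ℤ × ℤ => Phi N p.1 p.2.1 p.2.2) ''
      (Set.Ico 0 (24 * (N : ℤ) ^ 2) ×ˢ Set.Ico 0 (N : ℤ) ×ˢ Set.Ico 0 (N : ℤ)) := by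
    rintro _ ⟨k, u, v, rfl⟩
    have e1 : Phi N k u v = Phi N (k - v / N * (24 * N * u)) u (v % N) := by
      rw [← Phi_v_mul N hN]; congr 1; rw [mul_comm]; exact (Int.emod_add_mul_ediv v N).symm
    set k' := k - v / N * (24 * N * u)
    have e2 : Phi N k' u (v % N) = Phi N k' (u % N) (v % N) := by
      rw [← Phi_u_mul N hN k' (u % N) (v % N) (u / N)]; congr 1
      rw [mul_comm]; exact (Int.emod_add_mul_ediv u N).symm
    have e3 : Phi N k' (u % N) (v % N) = Phi N (k' % (24 * (N : ℤ) ^ 2)) (u % N) (v % N) := by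
      rw [← Phi_k_mul N hN (k' % (24 * (N : ℤ) ^ 2)) (u % N) (v % N) (k' / (24 * (N : ℤ) ^ 2))]
      congr 1
      rw [mul_comm (k' / (24 * (N : ℤ) ^ 2))]; exact (Int.emod_add_mul_ediv k' _).symm
    refine ⟨(k' % (24 * (N : ℤ) ^ 2), u % N, v % N), ⟨⟨Int.emod_nonneg _ (by positivity),
      Int.emod_lt_of_pos _ (by positivity)⟩, ⟨Int.emod_nonneg _ hNz, Int.emod_lt_of_pos _ (by omega)⟩,
      ⟨Int.emod_nonneg _ hNz, Int.emod_lt_of_pos _ (by omega)⟩⟩, ?_⟩
    rw [e1, e2, e3]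
  refine Set.Finite.subset (Set.Finite.image _ ?_) this
  exact (Set.finite_Ico _ _).prod ((Set.finite_Ico _ _).prod (Set.finite_Ico _ _))

theorem Phi_T (n : ℕ) (hn : 0 < n) (k u v : ℤ) (τ : ℍ) :
    Phi (2 * n) k u v (ModularGroup.T • τ) =
      Phi (2 * n) (k + 12 * v ^ 2 - 4 * (n : ℤ) ^ 2) (u + v + n) v τ := by
  have hn' : (n : ℝ) ≠ 0 := by exact_mod_cast hn.ne'
  have hnC : (n : ℂ) ≠ 0 := by exact_mod_cast hn.ne'
  unfold Phi
  have hT : ((ModularGroup.T • τ : ℍ) : ℂ) = (τ : ℂ) + 1 := by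
    rw [UpperHalfPlane.modular_T_smul]; simp [add_comm]
  rw [hT, Gf_T, ← mul_assoc, ← Complex.exp_add]
  have e : (u : ℝ) / ((2 * n : ℕ) : ℝ) + (v : ℝ) / ((2 * n : ℕ) : ℝ) + 1 / 2 =
      ((u + v + n : ℤ) : ℝ) / ((2 * n : ℕ) : ℝ) := by
    push_cast; field_simp
  rw [e]
  congr 2
  push_cast
  field_simp
  ring

theorem Phi_S (n : ℕ) (hn : 0 < n) (k u v : ℤ) (τ : ℍ) :
    Phi (2 * n) k u v (ModularGroup.S • τ) =
      Phi (2 * n) (k - 24 * (u * v)) (-v) u τ := by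
  have hnC : (n : ℂ) ≠ 0 := by exact_mod_cast hn.ne'
  unfold Phi
  have hS : ((ModularGroup.S • τ : ℍ) : ℂ) = -1 / (τ : ℂ) := by
    rw [UpperHalfPlane.modular_S_smul, UpperHalfPlane.coe_mk, inv_neg, neg_div, one_div]
  rw [hS, Gf_S _ _ τ.im_pos, ← mul_assoc, ← Complex.exp_add]
  have e : -((v : ℝ) / ((2 * n : ℕ) : ℝ)) = ((-v : ℤ) : ℝ) / ((2 * n : ℕ) : ℝ) := by
    push_cast; ring
  rw [e]
  congr 2
  push_cast
  field_simp
  ring

/-- the set of functions is stable under `SL(2, ℤ)` -/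
theorem PhiSet_smul (n : ℕ) (hn : 0 < n) (γ : SL(2, ℤ)) : ∀ f ∈ PhiSet (2 * n),
    (fun τ : ℍ => f (γ • τ)) ∈ PhiSet (2 * n) := by
  have hγ : γ ∈ Subgroup.closure {ModularGroup.S, ModularGroup.T} := by
    rw [SpecialLinearGroup.SL2Z_generators]; trivial
  induction hγ using Subgroup.closure_induction with
  | mem x hx =>
    rintro _ ⟨k, u, v, rfl⟩
    rcases hx with rfl | rfl
    · exact ⟨_, _, _, funext fun τ => Phi_S n hn k u v τ⟩
    · exact ⟨_, _, _, funext fun τ => Phi_T n hn k u v τ⟩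
  | one => intro f hf; simpa using hf
  | mul x y _ _ hx hy =>
    intro f hf
    have := hy _ (hx f hf)
    simpa [mul_smul] using this
  | inv x _ hx =>
    -- finite set, injective self-map
    intro f hf
    have hfin := PhiSet_finite (2 * n) (by omega)
    have : Finite (PhiSet (2 * n)) := hfin.to_subtype
    let F : PhiSet (2 * n) → PhiSet (2 * n) := fun g => ⟨fun τ => g.1 (x • τ), hx g.1 g.2⟩
    have hinj : Function.Injective F := by
      intro g h e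
      ext τ
      have h2 : ∀ τ : ℍ, g.1 (x • τ) = h.1 (x • τ) := congrFun (congrArg Subtype.val e)
      have := h2 (x⁻¹ • τ)
      simpa using this
    obtain ⟨g, hg⟩ := Finite.surjective_of_injective hinj ⟨f, hf⟩
    have e : (fun τ : ℍ => g.1 (x • τ)) = f := congrArg Subtype.val hg
    have : (fun τ : ℍ => f (x⁻¹ • τ)) = g.1 := by
      ext τ
      rw [← e]; simp
    rw [this]; exact g.2

end

end Pool.Agent.R395.Nm
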