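import Mathlib

/-! # Linear independence of `ε ↦ log(1 + e^{-vε})`, `v > 0`, `1`, `ε` -/

namespace Pool.Agent.R395.Nm

open Filter Topology Finset

noncomputable section

/-- `log (1 + e^{-t})` -/
def Lg (t : ℝ) : ℝ := Real.log (1 + Real.exp (-t))

theorem Lg_nonneg (t : ℝ) : 0 ≤ Lg t := Real.log_nonneg (by linarith [Real.exp_pos (-t)])

theorem Lg_le (t : ℝ) : Lg t ≤ Real.exp (-t) := by
  have := Real.log_le_sub_one_of_pos (show 0 < 1 + Real.exp (-t) by positivity)
  unfold Lg; linarith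

theorem Lg_ge (t : ℝ) : Real.exp (-t) - Real.exp (-t) ^ 2 ≤ Lg t := by
  have hu := Real.exp_pos (-t)
  set u := Real.exp (-t) with hu'
  have h1 := Real.one_sub_inv_le_log_of_pos (show 0 < 1 + u by positivity)
  have h2 : u - u ^ 2 ≤ 1 - (1 + u)⁻¹ := by
    have h3 : 1 - (1 + u)⁻¹ = u / (1 + u) := by field_simp; ring
    rw [h3, le_div_iff₀ (by positivity)]
    nlinarith [pow_pos hu 3]
  unfold Lg; linarith

theorem Lg_neg (t : ℝ) : Lg (-t) = Lg t + t := by
  unfold Lg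
  have h : 1 + Real.exp (- -t) = (1 + Real.exp (-t)) * Real.exp t := by
    rw [neg_neg, add_mul, one_mul, ← Real.exp_add]
    simp [add_comm]
  rw [h, Real.log_mul (by positivity) (by positivity), Real.log_exp]

theorem exp_lim {c : ℝ} (hc : 0 < c) : Tendsto (fun ε : ℝ => Real.exp (-(ε * c))) atTop (𝓝 0) := by
  have h : Tendsto (fun ε : ℝ => ε * c) atTop atTop := tendsto_id.atTop_mul_const hc
  exact Real.tendsto_exp_neg_atTop_nhds_zero.comp h

theorem Lg_lim {v : ℝ} (hv : 0 < v) : Tendsto (fun ε : ℝ => Lg (ε * v)) atTop (𝓝 0) :=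
  squeeze_zero (fun ε => Lg_nonneg _) (fun ε => Lg_le _) (exp_lim hv)

theorem Lg_lim_eq {v : ℝ} (hv : 0 < v) :
    Tendsto (fun ε : ℝ => Real.exp (ε * v) * Lg (ε * v)) atTop (𝓝 1) := by
  have h1 : Tendsto (fun ε : ℝ => 1 - Real.exp (-(ε * v))) atTop (𝓝 (1 - 0)) :=
    tendsto_const_nhds.sub (exp_lim hv)
  rw [sub_zero] at h1
  refine tendsto_of_tendsto_of_tendsto_of_le_of_le h1 tendsto_const_nhds (fun ε => ?_) (fun ε => ?_)
  · have h2 := mul_le_mul_of_nonneg_left (Lg_ge (ε * v)) (Real.exp_pos (ε * v)).le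
    refine le_trans (le_of_eq ?_) h2
    have h3 : Real.exp (ε * v) * Real.exp (-(ε * v)) = 1 := by rw [← Real.exp_add]; simp
    linear_combination (Real.exp (-(ε * v)) - 1) * h3
  · have h2 := mul_le_mul_of_nonneg_left (Lg_le (ε * v)) (Real.exp_pos (ε * v)).le
    refine h2.trans (le_of_eq ?_)
    rw [← Real.exp_add]; simp

theorem Lg_lim_gt {v v0 : ℝ} (h : v0 < v) :
    Tendsto (fun ε : ℝ => Real.exp (ε * v0) * Lg (ε * v)) atTop (𝓝 0) := by
  refine squeeze_zero (fun ε => mul_nonneg (Real.exp_pos _).le (Lg_nonneg _)) (fun ε => ?_)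
    (exp_lim (sub_pos.2 h))
  refine (mul_le_mul_of_nonneg_left (Lg_le (ε * v)) (Real.exp_pos (ε * v0)).le).trans (le_of_eq ?_)
  rw [← Real.exp_add]
  congr 1
  ring

theorem lin_zero {γ k : ℝ} (h : Tendsto (fun ε : ℝ => γ * ε + k) atTop (𝓝 0)) : γ = 0 ∧ k = 0 := by
  have h1 : Tendsto (fun ε : ℝ => γ * (ε + 1) + k) atTop (𝓝 0) :=
    h.comp (tendsto_atTop_add_const_right _ 1 tendsto_id)
  have h2 := h1.sub h
  have h3 : (fun ε : ℝ => γ * (ε + 1) + k - (γ * ε + k)) = fun _ => γ := by funext ε; ring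
  rw [h3, sub_zero] at h2
  have hγ : γ = 0 := tendsto_nhds_unique tendsto_const_nhds h2
  subst hγ
  simp only [zero_mul, zero_add] at h
  exact ⟨rfl, tendsto_nhds_unique tendsto_const_nhds h⟩

/-- the weighted version -/
theorem li_weight (V : Finset ℝ) (hV : ∀ v ∈ V, 0 ≤ v) (W : ℝ → ℝ) (γ k : ℝ)
    (h : ∀ ε : ℝ, 0 < ε → ∑ v ∈ V, W v * Lg (ε * v) = γ * ε + k) :
    ∀ v ∈ V, 0 < v → W v = 0 := by
  classical
  by_contra hcon
  push Not at hcon
  obtain ⟨v1, hv1, hv1p, hv1W⟩ := hcon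
  obtain ⟨v0, hv0, hmin⟩ := (V.filter fun v => 0 < v ∧ W v ≠ 0).exists_min_image id
    ⟨v1, by simp [hv1, hv1p, hv1W]⟩
  rw [Finset.mem_filter] at hv0
  obtain ⟨hv0V, hv0p, hv0W⟩ := hv0
  -- the terms
  have hpos : ∀ ε : ℝ, ∑ v ∈ V.filter (fun v => 0 < v), W v * Lg (ε * v) +
      ∑ v ∈ V.filter (fun v => ¬ 0 < v), W v * Lg (ε * v) = ∑ v ∈ V, W v * Lg (ε * v) := fun ε =>
    Finset.sum_filter_add_sum_filter_not V _ _
  have hzero : ∀ ε : ℝ, ∑ v ∈ V.filter (fun v => ¬ 0 < v), W v * Lg (ε * v) =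
      ∑ v ∈ V.filter (fun v => ¬ 0 < v), W v * Lg 0 := by
    intro ε
    refine Finset.sum_congr rfl fun v hv => ?_
    rw [Finset.mem_filter] at hv
    have : v = 0 := le_antisymm (not_lt.1 hv.2) (hV v hv.1)
    rw [this, mul_zero]
  set k1 := k - ∑ v ∈ V.filter (fun v => ¬ 0 < v), W v * Lg 0 with hk1
  have h2 : ∀ ε : ℝ, 0 < ε → ∑ v ∈ V.filter (fun v => 0 < v), W v * Lg (ε * v) = γ * ε + k1 := by
    intro ε hε
    have := hpos ε
    rw [hzero, h ε hε] at this
    rw [hk1]; linarith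
  have h3 : Tendsto (fun ε : ℝ => ∑ v ∈ V.filter (fun v => 0 < v), W v * Lg (ε * v)) atTop (𝓝 0) := by
    have : Tendsto (fun ε : ℝ => ∑ v ∈ V.filter (fun v => 0 < v), W v * Lg (ε * v)) atTop
        (𝓝 (∑ v ∈ V.filter (fun v => 0 < v), W v * 0)) := by
      refine tendsto_finsetSum _ fun v hv => ?_
      exact (Lg_lim (Finset.mem_filter.1 hv).2).const_mul _
    simpa using this
  have h4 : Tendsto (fun ε : ℝ => γ * ε + k1) atTop (𝓝 0) := by
    refine h3.congr' ?_
    filter_upwards [eventually_gt_atTop 0] with ε hε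
    exact h2 ε hε
  obtain ⟨hγ, hk⟩ := lin_zero h4
  have h5 : ∀ ε : ℝ, 0 < ε → Real.exp (ε * v0) *
      ∑ v ∈ V.filter (fun v => 0 < v), W v * Lg (ε * v) = 0 := by
    intro ε hε
    rw [h2 ε hε, hγ, hk]; simp
  have h6 : Tendsto (fun ε : ℝ => Real.exp (ε * v0) *
      ∑ v ∈ V.filter (fun v => 0 < v), W v * Lg (ε * v)) atTop (𝓝 (W v0)) := by
    have e : ∑ v ∈ V.filter (fun v => 0 < v), (if v = v0 then W v0 else 0) = W v0 := by
      rw [Finset.sum_ite_eq']
      simp [hv0V, hv0p]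
    rw [← e]
    simp_rw [Finset.mul_sum]
    refine tendsto_finsetSum _ fun v hv => ?_
    rw [Finset.mem_filter] at hv
    have e2 : (fun ε : ℝ => Real.exp (ε * v0) * (W v * Lg (ε * v))) =
        fun ε : ℝ => W v * (Real.exp (ε * v0) * Lg (ε * v)) := by funext ε; ring
    rw [e2]
    split_ifs with hvv
    · subst hvv
      simpa using (Lg_lim_eq hv.2).const_mul (W v)
    · rcases lt_or_gt_of_ne hvv with hlt | hgt
      · -- then `W v = 0`
        have : W v = 0 := by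
          by_contra hW
          have := hmin v (by simp [hv.1, hv.2, hW])
          simp at this
          linarith
        simp [this]
      · simpa using (Lg_lim_gt hgt).const_mul (W v)
  have h7 : Tendsto (fun ε : ℝ => Real.exp (ε * v0) *
      ∑ v ∈ V.filter (fun v => 0 < v), W v * Lg (ε * v)) atTop (𝓝 0) := by
    refine tendsto_const_nhds.congr' ?_
    filter_upwards [eventually_gt_atTop 0] with ε hε
    exact (h5 ε hε).symm
  exact hv0W (tendsto_nhds_unique h6 h7)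

theorem li {α β : Type} (s : Finset α) (t : Finset β) (y : α → ℝ) (z : β → ℝ)
    (hy : ∀ p ∈ s, 0 ≤ y p) (hz : ∀ p ∈ t, 0 ≤ z p) (γ k : ℝ)
    (h : ∀ ε : ℝ, 0 < ε → ∑ q ∈ t, Lg (ε * z q) - ∑ p ∈ s, Lg (ε * y p) = γ * ε + k)
    (v : ℝ) (hv : 0 < v) :
    (s.filter fun p => y p = v).card = (t.filter fun q => z q = v).card := by
  classical
  set V : Finset ℝ := s.image y ∪ t.image z with hV
  set W : ℝ → ℝ := fun v => ((t.filter fun q => z q = v).card : ℝ) -
    ((s.filter fun p => y p = v).card : ℝ) with hW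
  have h1 : ∀ v ∈ V, 0 ≤ v := by
    intro v hv
    rw [hV, Finset.mem_union, Finset.mem_image, Finset.mem_image] at hv
    rcases hv with ⟨p, hp, rfl⟩ | ⟨p, hp, rfl⟩
    · exact hy p hp
    · exact hz p hp
  have h2 : ∀ ε : ℝ, 0 < ε → ∑ v ∈ V, W v * Lg (ε * v) = γ * ε + k := by
    intro ε hε
    rw [← h ε hε]
    have e1 : ∑ q ∈ t, Lg (ε * z q) = ∑ v ∈ V, ((t.filter fun q => z q = v).card : ℝ) * Lg (ε * v) := by
      rw [← Finset.sum_fiberwise_of_maps_to (t := V) (g := z) (fun q hq => by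
        rw [hV]; exact Finset.mem_union_right _ (Finset.mem_image_of_mem _ hq))]
      refine Finset.sum_congr rfl fun v _ => ?_
      rw [Finset.sum_congr rfl (g := fun _ => Lg (ε * v)) (fun q hq => by
        rw [(Finset.mem_filter.1 hq).2]), Finset.sum_const, nsmul_eq_mul]
    have e2 : ∑ q ∈ s, Lg (ε * y q) = ∑ v ∈ V, ((s.filter fun q => y q = v).card : ℝ) * Lg (ε * v) := by
      rw [← Finset.sum_fiberwise_of_maps_to (t := V) (g := y) (fun q hq => by
        rw [hV]; exact Finset.mem_union_left _ (Finset.mem_image_of_mem _ hq))]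
      refine Finset.sum_congr rfl fun v _ => ?_
      rw [Finset.sum_congr rfl (g := fun _ => Lg (ε * v)) (fun q hq => by
        rw [(Finset.mem_filter.1 hq).2]), Finset.sum_const, nsmul_eq_mul]
    rw [e1, e2, ← Finset.sum_sub_distrib]
    refine Finset.sum_congr rfl fun v _ => ?_
    rw [hW]; ring
  by_cases hvV : v ∈ V
  · have := li_weight V h1 W γ k h2 v hvV hv
    rw [hW] at this
    have h3 : ((s.filter fun p => y p = v).card : ℝ) = ((t.filter fun q => z q = v).card : ℝ) := by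
      simp only at this
      linarith
    exact_mod_cast h3
  · rw [Finset.card_eq_zero.2, Finset.card_eq_zero.2]
    · rw [Finset.filter_eq_empty_iff]
      intro q hq hqv
      apply hvV
      rw [hV, ← hqv]; exact Finset.mem_union_right _ (Finset.mem_image_of_mem _ hq)
    · rw [Finset.filter_eq_empty_iff]
      intro q hq hqv
      apply hvV
      rw [hV, ← hqv]; exact Finset.mem_union_left _ (Finset.mem_image_of_mem _ hq)

end

end Pool.Agent.R395.Nm
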