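import Pool.Agent.R395.Nm.Suf
import Pool.Agent.TH825.Nahm.Log
import Pool.Agent.TH825.Nahm.Gup
import Pool.Agent.TH825.Nahm.Rgc
import Pool.Agent.TH825.Nahm.Ntqp
import Pool.Agent.TH825.Nahm.Modgen

/-! # Necessity, part 1: growth at the integral cusps -/

namespace Pool.Agent.R395.Nm

open Complex UpperHalfPlane ModularForm Filter Topology Asymptotics
open scoped Real MatrixGroups Manifold
open Pool.Agent.TH825.Nahm

noncomputable section

/-- the translate by `a` -/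
def tr (f : ℍ → ℂ) (a : ℤ) (τ : ℍ) : ℂ := f (ModularGroup.T ^ a • τ)

theorem tr_modular {f : ℍ → ℂ} (hf : IsModularFn f) (a : ℤ) : IsModularFn (tr f a) := by
  obtain ⟨Γ, hΓ, hinv⟩ := hf
  refine ⟨Γ.comap (MulAut.conj (ModularGroup.T ^ a)).toMonoidHom, ?_, ?_⟩
  · constructor
    rw [Subgroup.index_comap_of_surjective _ (MulAut.conj (ModularGroup.T ^ a)).surjective]
    exact hΓ.index_ne_zero
  · intro γ hγ τ
    have h1 : ModularGroup.T ^ a * γ * (ModularGroup.T ^ a)⁻¹ ∈ Γ := hγ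
    unfold tr
    have h2 := hinv _ h1 (ModularGroup.T ^ a • τ)
    rw [mul_smul, mul_smul, inv_smul_smul] at h2
    exact h2

theorem coe_T_zpow (a : ℤ) (τ : ℍ) : ((ModularGroup.T ^ a • τ : ℍ) : ℂ) = (τ : ℂ) + a := by
  rw [UpperHalfPlane.modular_T_zpow_smul]
  simp [add_comm]

theorem im_T_zpow (a : ℤ) (τ : ℍ) : (ModularGroup.T ^ a • τ : ℍ).im = τ.im := by
  have := congrArg Complex.im (coe_T_zpow a τ)
  simpa using this

theorem LR_bound (x : ℝ) : ∃ K : ℝ, 0 ≤ K ∧ ∀ ε : ℝ, 0 < ε → ε ≤ 2 * π → LR x ε ≤ K / ε := by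
  refine ⟨Real.exp (2 * π * |x|) * (1 + 2 * π), by positivity, fun ε hε hε2 => ?_⟩
  have hs := Qpm.log_summable x ε hε
  have hs2 := Qpm.exp_summable ε x hε
  have h1 : LR x ε ≤ ∑' n : ℕ, Real.exp (-(ε * ((n : ℝ) + x))) := by
    refine hs.tsum_le_tsum (fun n => ?_) hs2
    have := Real.exp_pos (-(ε * ((n : ℝ) + x)))
    have := Real.log_le_sub_one_of_pos (show 0 < 1 + Real.exp (-(ε * ((n : ℝ) + x))) by positivity)
    linarith
  refine h1.trans ?_
  have h2 : ∀ n : ℕ, Real.exp (-(ε * ((n : ℝ) + x))) = Real.exp (-(ε * x)) * Real.exp (-ε) ^ n := by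
    intro n
    rw [← Real.exp_nat_mul, ← Real.exp_add]
    congr 1
    ring
  simp_rw [h2]
  have h3 : Real.exp (-ε) < 1 := by rw [Real.exp_lt_one_iff]; linarith
  rw [tsum_mul_left, tsum_geometric_of_lt_one (Real.exp_pos _).le h3]
  have h4 := Ntqp.one_sub_exp_ge hε.le
  have h5 : (1 - Real.exp (-ε))⁻¹ ≤ (1 + 2 * π) / ε := by
    rw [inv_le_comm₀ (by linarith) (by positivity), inv_div]
    refine le_trans ?_ h4
    exact div_le_div_of_nonneg_left hε.le (by positivity) (by linarith)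
  have h6 : Real.exp (-(ε * x)) ≤ Real.exp (2 * π * |x|) := by
    refine Real.exp_le_exp.2 ?_
    have : -x ≤ |x| := neg_le_abs x
    have h0 : 0 ≤ |x| := abs_nonneg x
    nlinarith
  calc Real.exp (-(ε * x)) * (1 - Real.exp (-ε))⁻¹
      ≤ Real.exp (2 * π * |x|) * ((1 + 2 * π) / ε) := by
        refine mul_le_mul h6 h5 ?_ (Real.exp_pos _).le
        exact inv_nonneg.2 (by linarith)
    _ = _ := by ring

theorem sum_one_bound {r : ℕ} (B : Fin r → ℚ) (C : ℚ) : ∃ K : ℝ, ∀ τ : ℍ, τ.im ≤ 1 →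
    ‖nahmSum (1 : Matrix (Fin r) (Fin r) ℚ) B C τ‖ ≤ Real.exp (K / τ.im) := by
  choose K hK0 hK using fun i => LR_bound (1 / 2 + (B i : ℝ))
  refine ⟨2 * π * |(C : ℝ)| + ∑ i, K i / (2 * π), fun τ hτ => ?_⟩
  have him := τ.im_pos
  rw [sum_one, norm_mul, norm_prod]
  have h1 : ‖cexp (2 * π * Complex.I * τ * C)‖ ≤ Real.exp (2 * π * |(C : ℝ)| / τ.im) := by
    rw [Complex.norm_exp]
    refine Real.exp_le_exp.2 ?_
    have e : (2 * π * Complex.I * (τ : ℂ) * (C : ℂ)).re = -(2 * π * C * τ.im) := by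
      have : 2 * π * Complex.I * (τ : ℂ) * (C : ℂ) = ((2 * π * C : ℝ) : ℂ) * (Complex.I * τ) := by
        push_cast; ring
      rw [this, Complex.re_ofReal_mul, Complex.I_mul_re, UpperHalfPlane.coe_im]; ring
    rw [e, le_div_iff₀ him]
    have h2 : -(C : ℝ) ≤ |(C : ℝ)| := neg_le_abs _
    have h3 : 0 ≤ |(C : ℝ)| := abs_nonneg _
    have h4 : τ.im * τ.im ≤ 1 := by nlinarith
    have h5 : 0 ≤ τ.im * τ.im := by positivity
    have h6 : -(C : ℝ) * (τ.im * τ.im) ≤ |(C : ℝ)| := by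
      calc -(C : ℝ) * (τ.im * τ.im) ≤ |(C : ℝ)| * (τ.im * τ.im) := by gcongr
        _ ≤ |(C : ℝ)| * 1 := by gcongr
        _ = _ := by ring
    nlinarith [Real.pi_pos]
  have h2 : ∀ i, ‖FB (B i : ℝ) τ‖ ≤ Real.exp (K i / (2 * π) / τ.im) := by
    intro i
    unfold FB
    refine (Qpm.norm_le (-1) _ (ep τ) (ep_re_pos τ.im_pos) (by simp)).trans ?_
    refine Real.exp_le_exp.2 ?_
    rw [ep_re]
    have h3 := hK i (2 * π * τ.im) (by positivity) (by
      have := Real.pi_pos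
      nlinarith)
    refine h3.trans (le_of_eq ?_)
    field_simp
  calc ‖cexp (2 * π * Complex.I * τ * C)‖ * ∏ i, ‖FB (B i : ℝ) τ‖
      ≤ Real.exp (2 * π * |(C : ℝ)| / τ.im) * ∏ i, Real.exp (K i / (2 * π) / τ.im) := by
        refine mul_le_mul h1 (Finset.prod_le_prod (fun i _ => norm_nonneg _) fun i _ => h2 i)
          (Finset.prod_nonneg fun i _ => norm_nonneg _) (Real.exp_pos _).le
    _ = _ := by
        rw [← Real.exp_sum, ← Real.exp_add, add_div, Finset.sum_div]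

/-- `e(a x)` -/
def ee (t : ℝ) : ℂ := cexp (2 * π * Complex.I * t)

theorem norm_ee (t : ℝ) : ‖ee t‖ = 1 := by
  unfold ee
  have : (2 * π * Complex.I * t : ℂ) = ((2 * π * t : ℝ) : ℂ) * Complex.I := by push_cast; ring
  rw [this, Complex.norm_exp_ofReal_mul_I]

theorem FB_shift (b : ℝ) (a : ℤ) (τ : ℂ) :
    FB b (τ + a) = QP (-ee (a * (1 / 2 + b))) (1 / 2 + b) (ep τ) := by
  unfold FB QP
  refine tprod_congr fun n => ?_
  have key : cexp (-(ep (τ + a) * ((n : ℂ) + ((1 / 2 + b : ℝ) : ℂ)))) =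
      ee (a * (1 / 2 + b)) * cexp (-(ep τ * ((n : ℂ) + ((1 / 2 + b : ℝ) : ℂ)))) := by
    unfold ee ep
    rw [← Complex.exp_add, Complex.exp_eq_exp_iff_exists_int]
    refine ⟨a * n, ?_⟩
    push_cast
    ring
  rw [key]
  ring

/-- the germ of the translate -/
theorem tr_germ {r : ℕ} (B : Fin r → ℚ) (C : ℚ)
    (hmod : IsModularFn (nahmSum (1 : Matrix (Fin r) (Fin r) ℚ) B C)) (a : ℤ) :
    IsG (C : ℝ) (fun ε => ∏ i, QP (-ee (a * (1 / 2 + (B i : ℝ)))) (1 / 2 + (B i : ℝ)) ε) := by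
  set f := nahmSum (1 : Matrix (Fin r) (Fin r) ℚ) B C with hf
  have hd : DifferentiableOn ℂ (tr f a ∘ UpperHalfPlane.ofComplex) {z : ℂ | 0 < z.im} := by
    have h1 : DifferentiableOn ℂ (fun z : ℂ => cexp (2 * π * Complex.I * (z + a) * C) *
        ∏ i, FB (B i : ℝ) (z + a)) {z : ℂ | 0 < z.im} := by
      refine DifferentiableOn.mul (Differentiable.differentiableOn (by fun_prop)) ?_
      refine DifferentiableOn.fun_finsetProd (fun i _ => ?_)
      refine (FB_diff _).comp (Differentiable.differentiableOn (by fun_prop)) ?_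
      intro z hz
      simpa using hz
    refine h1.congr fun z hz => ?_
    rw [Function.comp_apply, UpperHalfPlane.ofComplex_apply_of_im_pos hz]
    unfold tr
    rw [hf, sum_one, coe_T_zpow]
  obtain ⟨K, hK⟩ := sum_one_bound B C
  obtain ⟨N, n, G, R0, hN, hG, hG0, hh⟩ := Modgen.main (tr f a) hd
    ⟨K, fun τ hτ => by
      unfold tr
      have := hK (ModularGroup.T ^ a • τ) (by rw [im_T_zpow]; exact hτ)
      rwa [im_T_zpow] at this⟩
    ⟨UpperHalfPlane.I, sum_one_ne _ _ _⟩ (tr_modular hmod a)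
  refine ⟨N, n, fun X => cexp (-(2 * π * Complex.I * a * C)) * G X, R0, hN,
    analyticAt_const.mul hG, mul_ne_zero (Complex.exp_ne_zero _) hG0, fun ε hε hR => ?_⟩
  have h1 := hh ε hε hR
  have him : 0 < (Complex.I * ε / (2 * π)).im := Eta.im_pos ε hε
  unfold tr at h1
  rw [hf, sum_one, coe_T_zpow, UpperHalfPlane.ofComplex_apply_of_im_pos him] at h1
  simp only [FB_shift] at h1
  have hep : ep (Complex.I * ε / (2 * π)) = ε := by
    unfold ep
    have hpi : (π : ℂ) ≠ 0 := by exact_mod_cast Real.pi_ne_zero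
    field_simp
    rw [Complex.I_sq]; ring
  rw [hep] at h1
  have h2 : cexp (2 * π * Complex.I * (Complex.I * ε / (2 * π) + a) * C) =
      cexp (-((C : ℝ) * ε)) * cexp (2 * π * Complex.I * a * C) := by
    rw [← Complex.exp_add]
    congr 1
    have hpi : (π : ℂ) ≠ 0 := by exact_mod_cast Real.pi_ne_zero
    field_simp
    ring_nf
    rw [Complex.I_sq]
    push_cast
    ring
  rw [h2] at h1
  have e1 : cexp ((C : ℝ) * ε) * cexp (-((C : ℝ) * ε)) = 1 := by
    rw [← Complex.exp_add, add_neg_cancel, Complex.exp_zero]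
  have e2 : cexp (-(2 * π * Complex.I * a * C)) * cexp (2 * π * Complex.I * a * C) = 1 := by
    rw [← Complex.exp_add, neg_add_cancel, Complex.exp_zero]
  calc ∏ i, QP (-ee (a * (1 / 2 + (B i : ℝ)))) (1 / 2 + (B i : ℝ)) ε
      = (cexp ((C : ℝ) * ε) * cexp (-((C : ℝ) * ε))) *
        (cexp (-(2 * π * Complex.I * a * C)) * cexp (2 * π * Complex.I * a * C)) *
        ∏ i, QP (-ee (a * (1 / 2 + (B i : ℝ)))) (1 / 2 + (B i : ℝ)) ε := by rw [e1, e2]; ring
    _ = cexp ((C : ℝ) * ε) * cexp (-(2 * π * Complex.I * a * C)) *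
        (cexp (-((C : ℝ) * ε)) * cexp (2 * π * Complex.I * a * C) *
        ∏ i, QP (-ee (a * (1 / 2 + (B i : ℝ)))) (1 / 2 + (B i : ℝ)) ε) := by ring
    _ = _ := by rw [h1]; ring

end

end Pool.Agent.R395.Nm
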