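import Pool.Agent.R395.Nm.Nec1

/-! # Necessity, part 2: the classes modulo `1` are symmetric -/

namespace Pool.Agent.R395.Nm

open Complex UpperHalfPlane ModularForm Filter Topology Asymptotics
open scoped Real MatrixGroups Manifold
open Pool.Agent.TH825.Nahm

noncomputable section

theorem EL_eq (φ : ℝ) (y : ℂ) : EL φ y = -(Real.cos φ * (Li2 y).re + Real.sin φ * (Li2 y).im) := by
  unfold EL
  have h : ∀ (a b : ℝ) (z : ℂ), (((a : ℂ) + (b : ℂ) * Complex.I) * z).re = a * z.re - b * z.im := by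
    intro a b z; simp
  have : -(Complex.I * (φ : ℂ)) = ((-φ : ℝ) : ℂ) * Complex.I := by push_cast; ring
  rw [this, Complex.exp_mul_I, ← Complex.ofReal_cos, ← Complex.ofReal_sin, h, Real.cos_neg,
    Real.sin_neg]
  ring

theorem sum_im_Li2 {r : ℕ} (B : Fin r → ℚ) (C : ℚ)
    (hmod : IsModularFn (nahmSum (1 : Matrix (Fin r) (Fin r) ℚ) B C)) (a : ℤ) :
    ∑ i, (Li2 (-ee (a * (1 / 2 + (B i : ℝ))))).im = 0 := by
  obtain ⟨lam, hlam⟩ := Gup.gup _ _ (tr_germ B C hmod a)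
  have hN := Ntqp.main Qpm.main Log.main
  set y : Fin r → ℂ := fun i => -ee (a * (1 / 2 + (B i : ℝ))) with hy
  have hy1 : ∀ i, ‖y i‖ = 1 := fun i => by rw [hy]; simp [norm_ee]
  have hy2 : ∀ i, (y i = 1 → ∀ k : ℕ, 1 / 2 + (B i : ℝ) ≠ -(k : ℝ)) := by
    intro i h1 k hk
    rw [hy] at h1
    simp only [hk] at h1
    have : ee (a * -(k : ℝ)) = 1 := by
      unfold ee
      rw [Complex.exp_eq_one_iff]
      exact ⟨-(a * k), by push_cast; ring⟩
    rw [this] at h1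
    norm_num at h1
  have key : ∀ φ : ℝ, |φ| < π / 2 → ∀ δ : ℝ, 0 < δ →
      ∑ i, EL φ (y i) - r * δ ≤ lam * Real.cos φ + δ := by
    intro φ hφ δ hδ
    have h1 := hlam φ hφ δ hδ
    have h2 : ∀ᶠ ρ : ℝ in 𝓝[>] 0, ∀ i, Real.exp ((EL φ (y i) - δ) / ρ) ≤
        ‖QP (y i) (1 / 2 + (B i : ℝ)) (ρ * cexp (Complex.I * φ))‖ := by
      rw [eventually_all]
      intro i
      filter_upwards [hN (y i) (1 / 2 + (B i : ℝ)) φ (hy1 i) (hy2 i) hφ δ hδ] with ρ h3
      exact h3.1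
    obtain ⟨ρ, ⟨h3, h4⟩, h5⟩ := ((h1.and h2).and self_mem_nhdsWithin).exists
    have hρ : (0 : ℝ) < ρ := h5
    rw [norm_prod] at h3
    have h6 : ∏ i, Real.exp ((EL φ (y i) - δ) / ρ) ≤
        ∏ i, ‖QP (y i) (1 / 2 + (B i : ℝ)) (ρ * cexp (Complex.I * φ))‖ :=
      Finset.prod_le_prod (fun i _ => (Real.exp_pos _).le) fun i _ => h4 i
    have h7 := h6.trans h3
    rw [← Real.exp_sum, Real.exp_le_exp, ← Finset.sum_div, div_le_div_iff_of_pos_right hρ,
      Finset.sum_sub_distrib] at h7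
    simpa using h7
  have key2 : ∀ φ : ℝ, |φ| < π / 2 → ∑ i, EL φ (y i) ≤ lam * Real.cos φ := by
    intro φ hφ
    refine le_of_forall_pos_le_add fun δ hδ => ?_
    have hr : (0 : ℝ) < (r : ℝ) + 1 := by positivity
    have := key φ hφ (δ / (r + 1)) (by positivity)
    have e : (r : ℝ) * (δ / (r + 1)) + δ / (r + 1) = δ := by field_simp
    linarith
  set R := ∑ i, (Li2 (y i)).re with hR
  set J := ∑ i, (Li2 (y i)).im with hJ
  have key3 : ∀ φ : ℝ, |φ| < π / 2 → 0 ≤ (lam + R) * Real.cos φ + J * Real.sin φ := by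
    intro φ hφ
    have h1 := key2 φ hφ
    simp only [EL_eq] at h1
    rw [Finset.sum_neg_distrib, Finset.sum_add_distrib, ← Finset.mul_sum, ← Finset.mul_sum] at h1
    rw [hR, hJ]
    linarith
  have hcl : IsClosed {φ : ℝ | 0 ≤ (lam + R) * Real.cos φ + J * Real.sin φ} :=
    isClosed_le continuous_const (by fun_prop)
  have hsub : Set.Ioo (-(π / 2)) (π / 2) ⊆ {φ : ℝ | 0 ≤ (lam + R) * Real.cos φ + J * Real.sin φ} := by
    intro φ hφ
    exact key3 φ (abs_lt.2 hφ)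
  have hsub2 := closure_minimal hsub hcl
  have hpi := Real.pi_pos
  rw [closure_Ioo (by linarith)] at hsub2
  have h1 := hsub2 (show π / 2 ∈ Set.Icc (-(π / 2)) (π / 2) from ⟨by linarith, le_refl _⟩)
  have h2 := hsub2 (show -(π / 2) ∈ Set.Icc (-(π / 2)) (π / 2) from ⟨le_refl _, by linarith⟩)
  simp at h1 h2
  exact le_antisymm (by linarith) h1

/-- `S(m) = ∑ sin(2π m x_i)` -/
def SS {r : ℕ} (x : Fin r → ℝ) (m : ℤ) : ℝ := ∑ i, Real.sin (2 * π * (m * x i))

theorem Li2_im (t : ℝ) : HasSum (fun n : ℕ => (-1 : ℝ) ^ (n + 1) *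
    Real.sin (2 * π * (((n : ℝ) + 1) * t)) / ((n : ℝ) + 1) ^ 2) (Li2 (-ee t)).im := by
  have hs : Summable (fun n : ℕ => (-ee t) ^ (n + 1) / ((n : ℂ) + 1) ^ 2) := by
    have h1 : Summable (fun n : ℕ => 1 / ((n : ℝ) + 1) ^ 2) := by
      have := (summable_nat_add_iff 1).2 (Real.summable_one_div_nat_pow.2 one_lt_two)
      refine this.congr fun n => ?_
      push_cast; rfl
    refine Summable.of_norm_bounded h1 fun n => ?_
    rw [norm_div, norm_pow, norm_neg, norm_ee, one_pow, norm_pow]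
    have : ((n : ℂ) + 1) = (((n : ℝ) + 1 : ℝ) : ℂ) := by push_cast; rfl
    rw [this, Complex.norm_real, Real.norm_eq_abs, abs_of_pos (by positivity)]
  have h2 := Complex.hasSum_im hs.hasSum
  unfold Li2
  convert h2 using 2 with n
  have e1 : (-ee t) ^ (n + 1) = (((-1 : ℝ) ^ (n + 1) : ℝ) : ℂ) * cexp (((2 * π * (((n : ℝ) + 1) * t) : ℝ) : ℂ) * Complex.I) := by
    rw [neg_pow]
    unfold ee
    rw [← Complex.exp_nat_mul]
    push_cast
    congr 2
    ring
  have e2 : ((n : ℂ) + 1) ^ 2 = ((((n : ℝ) + 1) ^ 2 : ℝ) : ℂ) := by push_cast; rfl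
  rw [e1, e2, Complex.div_ofReal_im, Complex.im_ofReal_mul, Complex.exp_ofReal_mul_I_im]

theorem SS_abs {r : ℕ} (x : Fin r → ℝ) (m : ℤ) : |SS x m| ≤ r := by
  unfold SS
  refine (Finset.abs_sum_le_sum_abs _ _).trans ?_
  refine (Finset.sum_le_sum fun i _ => Real.abs_sin_le_one _).trans ?_
  simp

/-- the contraction argument -/
theorem SS_zero {r : ℕ} (x : Fin r → ℝ)
    (h : ∀ a : ℤ, ∑ i, (Li2 (-ee (a * x i))).im = 0) (m : ℤ) : SS x m = 0 := by
  have hz : HasSum (fun n : ℕ => 1 / ((n : ℝ) + 1) ^ 2) (π ^ 2 / 6) := by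
    have := hasSum_zeta_two
    have h2 := (hasSum_nat_add_iff' 1).2 this
    simpa using h2
  have hz1 : HasSum (fun n : ℕ => 1 / ((n : ℝ) + 1 + 1) ^ 2) (π ^ 2 / 6 - 1) := by
    have h2 := (hasSum_nat_add_iff' 1).2 hz
    simpa using h2
  have hser : ∀ a : ℤ, HasSum (fun n : ℕ => (-1 : ℝ) ^ (n + 1) / ((n : ℝ) + 1) ^ 2 *
      SS x ((n + 1 : ℤ) * a)) 0 := by
    intro a
    rw [← h a]
    have h1 := hasSum_sum (s := Finset.univ) (fun i _ => Li2_im (a * x i))
    convert h1 using 2 with n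
    unfold SS
    rw [Finset.mul_sum]
    refine Finset.sum_congr rfl fun i _ => ?_
    push_cast
    rw [show ((n : ℝ) + 1) * a * x i = ((n : ℝ) + 1) * (a * x i) by ring]
    ring
  set c : ℝ := π ^ 2 / 6 - 1 with hc
  have hc0 : 0 ≤ c := by
    have := hz1.nonneg fun n => by positivity
    exact this
  have hc1 : c < 1 := by
    have h1 : π < 3.15 := Real.pi_lt_d2
    have h2 : 0 < π := Real.pi_pos
    rw [hc]; nlinarith
  have step : ∀ K : ℝ, (∀ a, |SS x a| ≤ K) → ∀ a, |SS x a| ≤ c * K := by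
    intro K hK a
    have h1 := (hasSum_nat_add_iff' 1).2 (hser a)
    simp only [Finset.range_one, Finset.sum_singleton, zero_sub] at h1
    have e0 : -((-1 : ℝ) ^ (0 + 1) / (((0 : ℕ) : ℝ) + 1) ^ 2 * SS x (((0 : ℕ) + 1 : ℤ) * a)) = SS x a := by
      norm_num
    rw [e0] at h1
    have h2 : ‖SS x a‖ ≤ c * K := by
      rw [← h1.tsum_eq]
      refine tsum_of_norm_bounded (hz1.mul_right K) fun n => ?_
      rw [norm_mul, norm_div, norm_pow, norm_neg, norm_one, one_pow, Real.norm_eq_abs,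
        Real.norm_eq_abs]
      push_cast
      rw [abs_of_pos (show (0 : ℝ) < ((n : ℝ) + 1 + 1) ^ 2 by positivity)]
      exact mul_le_mul_of_nonneg_left (hK _) (by positivity)
    exact h2
  have hit : ∀ k : ℕ, ∀ a, |SS x a| ≤ c ^ k * r := by
    intro k
    induction k with
    | zero => intro a; simpa using SS_abs x a
    | succ k ih =>
      intro a
      have := step _ ih a
      rw [pow_succ]
      linarith
  have hlim : Tendsto (fun k : ℕ => c ^ k * (r : ℝ)) atTop (𝓝 (0 * r)) :=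
    (tendsto_pow_atTop_nhds_zero_of_lt_one hc0 hc1).mul_const _
  rw [zero_mul] at hlim
  have := ge_of_tendsto hlim (Eventually.of_forall fun k => hit k m)
  exact abs_eq_zero.1 (le_antisymm this (abs_nonneg _))

end

end Pool.Agent.R395.Nm
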