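import Pool.Agent.R395.Nm.Nec2

/-! # Necessity, part 3: the classes modulo `1` are symmetric (counting) -/

namespace Pool.Agent.R395.Nm

open Complex UpperHalfPlane ModularForm Filter Topology Asymptotics
open scoped Real MatrixGroups Manifold
open Pool.Agent.TH825.Nahm

noncomputable section

theorem ee_add (s t : ℝ) : ee (s + t) = ee s * ee t := by
  unfold ee; rw [← Complex.exp_add]; push_cast; ring_nf

theorem ee_nat_mul (n : ℕ) (t : ℝ) : ee (n * t) = ee t ^ n := by
  unfold ee; rw [← Complex.exp_nat_mul]; push_cast; ring_nf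

theorem ee_int (k : ℤ) : ee (k : ℝ) = 1 := by
  unfold ee
  rw [Complex.exp_eq_one_iff]
  exact ⟨k, by push_cast; ring⟩

theorem ee_eq_one_iff (t : ℝ) : ee t = 1 ↔ ∃ k : ℤ, t = k := by
  constructor
  · intro h
    unfold ee at h
    rw [Complex.exp_eq_one_iff] at h
    obtain ⟨k, hk⟩ := h
    refine ⟨k, ?_⟩
    have h2 : (2 * π * Complex.I : ℂ) ≠ 0 := Complex.two_pi_I_ne_zero
    have h3 : (2 * π * Complex.I : ℂ) * t = (2 * π * Complex.I) * k := by rw [hk]; ring
    exact_mod_cast mul_left_cancel₀ h2 h3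
  · rintro ⟨k, rfl⟩; exact ee_int k

theorem conj_ee (t : ℝ) : (starRingEnd ℂ) (ee t) = ee (-t) := by
  unfold ee
  rw [← Complex.exp_conj]
  congr 1
  rw [map_mul, map_mul, map_mul, Complex.conj_I, Complex.conj_ofReal, Complex.conj_ofReal,
    map_ofNat]
  push_cast
  ring

theorem geom_ee (N : ℕ) (hN : 0 < N) (k : ℤ) :
    ∑ m ∈ Finset.range N, ee (m * ((k : ℝ) / N)) = if (N : ℤ) ∣ k then (N : ℂ) else 0 := by
  have hNr : (N : ℝ) ≠ 0 := by exact_mod_cast hN.ne'
  simp_rw [ee_nat_mul]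
  split_ifs with h
  · obtain ⟨l, rfl⟩ := h
    have : (((N : ℤ) * l : ℤ) : ℝ) / N = (l : ℝ) := by push_cast; field_simp
    rw [this, ee_int]
    simp
  · have h1 : ee ((k : ℝ) / N) ≠ 1 := by
      rw [Ne, ee_eq_one_iff]
      rintro ⟨l, hl⟩
      apply h
      refine ⟨l, ?_⟩
      rw [div_eq_iff hNr] at hl
      have : (k : ℝ) = ((N * l : ℤ) : ℝ) := by rw [hl]; push_cast; ring
      exact_mod_cast this
    rw [geom_sum_eq h1, ← ee_nat_mul, mul_div_cancel₀ _ hNr, ee_int, sub_self, zero_div]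

theorem class_sym_int {r : ℕ} (w : Fin r → ℤ) (N : ℕ) (hN : 0 < N)
    (h : ∀ m : ℤ, SS (fun i => (w i : ℝ) / N) m = 0) (u : ℤ) :
    (Finset.univ.filter fun i => (N : ℤ) ∣ w i - u).card =
      (Finset.univ.filter fun i => (N : ℤ) ∣ w i + u).card := by
  classical
  have hNr : (N : ℝ) ≠ 0 := by exact_mod_cast hN.ne'
  set E : ℕ → ℂ := fun m => ∑ i, ee (m * ((w i : ℝ) / N)) with hE
  have hreal : ∀ m, (starRingEnd ℂ) (E m) = E m := by
    intro m
    rw [Complex.conj_eq_iff_im, hE]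
    have h1 := h m
    unfold SS at h1
    rw [Complex.im_sum]
    rw [← h1]
    refine Finset.sum_congr rfl fun i _ => ?_
    unfold ee
    have : (2 * π * Complex.I * ((m * ((w i : ℝ) / N) : ℝ) : ℂ) : ℂ) =
      ((2 * π * ((m : ℤ) * ((w i : ℝ) / N)) : ℝ) : ℂ) * Complex.I := by push_cast; ring
    rw [this, Complex.exp_ofReal_mul_I_im]
  have key : ∀ v : ℤ, ∑ m ∈ Finset.range N, ee (m * (-(v : ℝ) / N)) * E m =
      (N : ℂ) * ((Finset.univ.filter fun i => (N : ℤ) ∣ w i - v).card : ℂ) := by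
    intro v
    have h1 : ∀ m ∈ Finset.range N, ee (m * (-(v : ℝ) / N)) * E m =
        ∑ i, ee (m * (((w i - v : ℤ) : ℝ) / N)) := by
      intro m _
      rw [hE, Finset.mul_sum]
      refine Finset.sum_congr rfl fun i _ => ?_
      rw [← ee_add]
      congr 1
      push_cast
      ring
    rw [Finset.sum_congr rfl h1, Finset.sum_comm]
    simp_rw [geom_ee N hN]
    rw [← Finset.sum_filter, Finset.sum_const, nsmul_eq_mul, mul_comm]
  have k1 := key u
  have k2 := key (-u)
  have k3 := congrArg (starRingEnd ℂ) k1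
  rw [map_sum, map_mul, Complex.conj_natCast, Complex.conj_natCast] at k3
  have k4 : ∀ m ∈ Finset.range N, (starRingEnd ℂ) (ee (m * (-(u : ℝ) / N)) * E m) =
      ee (m * (-((-u : ℤ) : ℝ) / N)) * E m := by
    intro m _
    rw [map_mul, hreal, conj_ee]
    congr 2
    push_cast
    ring
  rw [Finset.sum_congr rfl k4, k2] at k3
  have hNc : (N : ℂ) ≠ 0 := by exact_mod_cast hN.ne'
  have k5 := mul_left_cancel₀ hNc k3
  have k6 : (Finset.univ.filter fun i => (N : ℤ) ∣ w i - -u).card =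
    (Finset.univ.filter fun i => (N : ℤ) ∣ w i - u).card := by exact_mod_cast k5
  rw [← k6]
  simp only [sub_neg_eq_add]

open Classical in
/-- every class modulo `1` occurs as often as its negative -/
theorem class_sym {r : ℕ} (B : Fin r → ℚ) (C : ℚ)
    (hmod : IsModularFn (nahmSum (1 : Matrix (Fin r) (Fin r) ℚ) B C)) (c : ℚ) :
    (Finset.univ.filter fun i => ∃ m : ℤ, B i = c + m).card =
      (Finset.univ.filter fun i => ∃ m : ℤ, B i = -c + m).card := by
  obtain ⟨n, hn, hv⟩ := exists_denom B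
  choose v hv using hv
  -- common denominator of everything
  set N : ℕ := 2 * n * c.den with hN
  have hN0 : 0 < N := by have := c.den_pos; positivity
  have hc0 : (c.den : ℝ) ≠ 0 := by exact_mod_cast c.den_pos.ne'
  have hn0 : (n : ℝ) ≠ 0 := by exact_mod_cast hn.ne'
  have hcr : (c : ℝ) = (c.num : ℝ) / (c.den : ℝ) := by exact_mod_cast (Rat.num_div_den c).symm
  set w : Fin r → ℤ := fun i => (n + v i) * c.den with hw
  have hx : ∀ i, (w i : ℝ) / N = 1 / 2 + (B i : ℝ) := by
    intro i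
    rw [hv i, hw, hN]
    push_cast
    field_simp
  have hS : ∀ m : ℤ, SS (fun i => (w i : ℝ) / N) m = 0 := by
    intro m
    simp_rw [hx]
    exact SS_zero _ (fun a => sum_im_Li2 B C hmod a) m
  set u : ℤ := n * c.den + 2 * n * c.num with hu
  have h1 := class_sym_int w N hN0 hS u
  have hNr : (N : ℝ) ≠ 0 := by exact_mod_cast hN0.ne'
  have hur : (u : ℝ) = N * (1 / 2 + (c : ℝ)) := by
    rw [hu, hN, hcr]; push_cast; field_simp
  have hwr : ∀ i, (w i : ℝ) = N * (1 / 2 + (B i : ℝ)) := by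
    intro i
    rw [← hx i]; field_simp
  have e1 : ∀ i, (N : ℤ) ∣ w i - u ↔ ∃ m : ℤ, B i = c + m := by
    intro i
    constructor
    · rintro ⟨m, hm⟩
      refine ⟨m, ?_⟩
      have h2 : (w i : ℝ) - u = N * m := by exact_mod_cast hm
      rw [hwr, hur] at h2
      have h3 : (N : ℝ) * (B i : ℝ) = N * ((c : ℝ) + m) := by linear_combination h2
      have h4 := mul_left_cancel₀ hNr h3
      exact_mod_cast h4
    · rintro ⟨m, hm⟩
      refine ⟨m, ?_⟩
      have h4 : (B i : ℝ) = (c : ℝ) + m := by exact_mod_cast hm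
      have h2 : (w i : ℝ) - u = N * m := by
        rw [hwr, hur, h4]; ring
      exact_mod_cast h2
  have e2 : ∀ i, (N : ℤ) ∣ w i + u ↔ ∃ m : ℤ, B i = -c + m := by
    intro i
    constructor
    · rintro ⟨m, hm⟩
      refine ⟨m - 1, ?_⟩
      have h2 : (w i : ℝ) + u = N * m := by exact_mod_cast hm
      rw [hwr, hur] at h2
      have h3 : (N : ℝ) * (B i : ℝ) = N * (-(c : ℝ) + (m - 1)) := by linear_combination h2
      have h4 := mul_left_cancel₀ hNr h3
      push_cast
      exact_mod_cast h4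
    · rintro ⟨m, hm⟩
      refine ⟨m + 1, ?_⟩
      have h4 : (B i : ℝ) = -(c : ℝ) + m := by exact_mod_cast hm
      have h2 : (w i : ℝ) + u = N * (m + 1) := by
        rw [hwr, hur, h4]; ring
      exact_mod_cast h2
  simp only [e1, e2] at h1
  convert h1

end

end Pool.Agent.R395.Nm
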