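import Pool.Agent.R395.Nm.Nec3
import Pool.Agent.R395.Nm.Li
import Pool.Agent.TH825.Nahm.Qpr
import Pool.Agent.TH825.Nahm.S0

/-! # Necessity, part 4: reduction modulo `1` -/

namespace Pool.Agent.R395.Nm

open Complex UpperHalfPlane ModularForm Filter Topology Asymptotics
open scoped Real MatrixGroups Manifold
open Pool.Agent.TH825.Nahm

noncomputable section

def kk (b : ℚ) : ℤ := ⌈b - 1 / 2⌉

/-- the representative of `b` modulo `1` in `(-1/2, 1/2]` -/
def be (b : ℚ) : ℚ := b - kk b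

theorem be_lt (b : ℚ) : -(1 / 2) < be b := by
  unfold be kk
  have := Int.ceil_lt_add_one (b - 1 / 2)
  linarith

theorem be_le (b : ℚ) : be b ≤ 1 / 2 := by
  unfold be kk
  have := Int.le_ceil (b - 1 / 2)
  linarith

theorem LR_step (z : ℝ) {ε : ℝ} (hε : 0 < ε) : LR z ε = Lg (ε * z) + LR (z + 1) ε :=
  Qpr.LR_shift z hε

theorem LR_shift_nat (z : ℝ) {ε : ℝ} (hε : 0 < ε) (n : ℕ) :
    LR z ε = ∑ j ∈ Finset.range n, Lg (ε * (z + j)) + LR (z + n) ε := by
  induction n with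
  | zero => simp
  | succ n ih =>
    rw [ih, Finset.sum_range_succ, LR_step (z + n) hε,
      show z + ((n + 1 : ℕ) : ℝ) = z + n + 1 by push_cast; ring]
    ring

def PP (b : ℚ) (ε : ℝ) : ℝ := ∑ m ∈ Finset.range (kk b).toNat, Lg (ε * ((b : ℝ) - 1 / 2 - m))

def QQn (b : ℚ) (ε : ℝ) : ℝ := ∑ m ∈ Finset.range (-kk b).toNat, Lg (ε * (-(b : ℝ) - 1 / 2 - m))

def RR (b : ℚ) : ℝ := ∑ m ∈ Finset.range (-kk b).toNat, (-(b : ℝ) - 1 / 2 - m)

theorem LR_red (b : ℚ) {ε : ℝ} (hε : 0 < ε) :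
    LR (1 / 2 + (b : ℝ)) ε = LR (1 / 2 + (be b : ℝ)) ε - PP b ε + QQn b ε + ε * RR b := by
  have hbe : (be b : ℝ) = (b : ℝ) - (kk b : ℝ) := by unfold be; push_cast; rfl
  rcases le_total 0 (kk b) with h | h
  · obtain ⟨n, hn⟩ := Int.eq_ofNat_of_zero_le h
    have h0 : (-kk b).toNat = 0 := by omega
    have h1 : (kk b).toNat = n := by omega
    have hQ : QQn b ε = 0 := by unfold QQn; rw [h0]; simp
    have hR : RR b = 0 := by unfold RR; rw [h0]; simp
    have hP : PP b ε = ∑ j ∈ Finset.range n, Lg (ε * (1 / 2 + (be b : ℝ) + j)) := by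
      unfold PP
      rw [h1, ← Finset.sum_range_reflect]
      refine Finset.sum_congr rfl fun j hj => ?_
      have hj' := Finset.mem_range.1 hj
      have : ((n - 1 - j : ℕ) : ℝ) = (n : ℝ) - 1 - j := by
        rw [Nat.cast_sub (by omega), Nat.cast_sub (by omega)]; simp
      rw [this, hbe, hn]
      congr 1
      push_cast
      ring
    have hs := LR_shift_nat (1 / 2 + (be b : ℝ)) hε n
    have e : 1 / 2 + (be b : ℝ) + n = 1 / 2 + (b : ℝ) := by rw [hbe, hn]; push_cast; ring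
    rw [e] at hs
    rw [hQ, hR, hP]
    linarith
  · obtain ⟨n, hn⟩ := Int.eq_ofNat_of_zero_le (neg_nonneg.2 h)
    have h0 : (kk b).toNat = 0 := by omega
    have h1 : (-kk b).toNat = n := by omega
    have hP : PP b ε = 0 := by unfold PP; rw [h0]; simp
    have hs := LR_shift_nat (1 / 2 + (b : ℝ)) hε n
    have hk : (kk b : ℝ) = -(n : ℝ) := by
      have : kk b = -(n : ℤ) := by omega
      rw [this]; push_cast; rfl
    have e : 1 / 2 + (b : ℝ) + n = 1 / 2 + (be b : ℝ) := by rw [hbe, hk]; ring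
    rw [e] at hs
    have hQR : QQn b ε + ε * RR b = ∑ j ∈ Finset.range n, Lg (ε * (1 / 2 + (b : ℝ) + j)) := by
      unfold QQn RR
      rw [h1, Finset.mul_sum, ← Finset.sum_add_distrib]
      refine Finset.sum_congr rfl fun j _ => ?_
      rw [← Lg_neg]
      congr 1
      ring
    rw [hP]
    linarith

/-- the exponent -/
def EE {r : ℕ} (B : Fin r → ℚ) (ε : ℝ) : ℝ := ∑ i, (-PP (B i) ε + QQn (B i) ε + ε * RR (B i))

theorem sum_LR {r : ℕ} (B : Fin r → ℚ) {ε : ℝ} (hε : 0 < ε) :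
    ∑ i, LR (1 / 2 + (B i : ℝ)) ε = ∑ i, LR (1 / 2 + (be (B i) : ℝ)) ε + EE B ε := by
  unfold EE
  rw [← Finset.sum_add_distrib]
  refine Finset.sum_congr rfl fun i _ => ?_
  rw [LR_red (B i) hε]
  ring

theorem Lg_analytic (c z : ℝ) : AnalyticAt ℝ (fun ε : ℝ => Lg (ε * c)) z := by
  unfold Lg
  refine AnalyticAt.log ?_ (by positivity)
  exact analyticAt_const.add ((analyticAt_id.mul analyticAt_const).neg.rexp)

theorem EE_analytic {r : ℕ} (B : Fin r → ℚ) (z : ℝ) : AnalyticAt ℝ (EE B) z := by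
  unfold EE PP QQn
  refine Finset.analyticAt_fun_sum _ fun i _ => ?_
  refine ((AnalyticAt.neg ?_).add ?_).add (analyticAt_id.mul analyticAt_const)
  · exact Finset.analyticAt_fun_sum _ fun m _ => Lg_analytic _ z
  · exact Finset.analyticAt_fun_sum _ fun m _ => Lg_analytic _ z

theorem Sym_be {r : ℕ} (B : Fin r → ℚ) (C : ℚ)
    (hmod : IsModularFn (nahmSum (1 : Matrix (Fin r) (Fin r) ℚ) B C)) : Sym (fun i => be (B i)) := by
  classical
  intro b hb1 hb2
  by_cases hb : -(1 / 2) < b ∧ b < 1 / 2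
  · have h1 := class_sym B C hmod b
    have e1 : ∀ (c : ℚ), -(1 / 2) < c → c < 1 / 2 → ∀ i, (∃ m : ℤ, B i = c + m) ↔ be (B i) = c := by
      intro c hc1 hc2 i
      constructor
      · rintro ⟨m, hm⟩
        have h2 : be (B i) = c + ((m - kk (B i) : ℤ) : ℚ) := by
          unfold be
          rw [hm]; push_cast; ring
        have h3 := be_lt (B i)
        have h4 := be_le (B i)
        rw [h2] at h3 h4
        have h5 : (((m - kk (B i) : ℤ) : ℚ)) < 1 := by linarith
        have h6 : (-1 : ℚ) < (((m - kk (B i) : ℤ) : ℚ)) := by linarith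
        have h7 : (m - kk (B i) : ℤ) < 1 := by exact_mod_cast h5
        have h8 : (-1 : ℤ) < (m - kk (B i) : ℤ) := by exact_mod_cast h6
        have h9 : m - kk (B i) = 0 := by omega
        rw [h2, h9]; simp
      · intro h
        refine ⟨kk (B i), ?_⟩
        rw [← h]
        unfold be
        ring
    have e2 := e1 b hb.1 hb.2
    have e3 := e1 (-b) (by linarith [hb.2]) (by linarith [hb.1])
    simp only [e2, e3] at h1
    convert h1
  · have hb' : ¬ (-(1 / 2) ≤ b ∧ b ≤ 1 / 2) := by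
      rintro ⟨h1, h2⟩
      apply hb
      refine ⟨lt_of_le_of_ne h1 ?_, lt_of_le_of_ne h2 hb1⟩
      intro h; apply hb2; rw [← h]; norm_num
    rw [Finset.card_eq_zero.2, Finset.card_eq_zero.2]
    · rw [Finset.filter_eq_empty_iff]
      intro i _ h
      apply hb'
      have h3 := be_lt (B i)
      have h4 := be_le (B i)
      simp only at h
      rw [h] at h3 h4
      constructor <;> linarith
    · rw [Finset.filter_eq_empty_iff]
      intro i _ h
      apply hb'
      have h3 := be_lt (B i)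
      have h4 := be_le (B i)
      simp only at h
      rw [h] at h3 h4
      constructor <;> linarith

/-- the value of the germ for real `ε` -/
theorem rg_prod {r : ℕ} (B : Fin r → ℚ) (C : ℚ)
    (hmod : IsModularFn (nahmSum (1 : Matrix (Fin r) (Fin r) ℚ) B C)) :
    RG (fun ε : ℝ => ((Real.exp (∑ i, LR (1 / 2 + (B i : ℝ)) ε - C * ε) : ℝ) : ℂ)) := by
  have h1 := Rgc.rg_isG _ _ (tr_germ B C hmod 0)
  refine Rgc.rg_congr _ _ h1 ?_
  filter_upwards [self_mem_nhdsWithin] with ε hε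
  have hε' : (0 : ℝ) < ε := hε
  have h2 : ∀ i, QP (-ee (((0 : ℤ) : ℝ) * (1 / 2 + (B i : ℝ)))) (1 / 2 + (B i : ℝ)) (ε : ℂ) =
      ((Real.exp (LR (1 / 2 + (B i : ℝ)) ε) : ℝ) : ℂ) := by
    intro i
    have h3 : ee (((0 : ℤ) : ℝ) * (1 / 2 + (B i : ℝ))) = 1 := by
      have := ee_int 0
      simpa using this
    rw [h3]
    exact ((Qpm.main (-1) (1 / 2 + (B i : ℝ)) (ε : ℂ) (by simpa using hε')).2.2.2.2.2.2.2 ε hε').2
  rw [Finset.prod_congr rfl fun i _ => h2 i, sub_eq_add_neg, Real.exp_add, Real.exp_sum]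
  push_cast
  congr 1

/-- an analytic `g` such that `e^g` is a germ in `X = e^{-4π²/(Nε)}` is constant -/
theorem rg_const (g : ℝ → ℝ) (hg : ∀ z, AnalyticAt ℝ g z)
    (g4 : RG (fun ε : ℝ => ((Real.exp (g ε) : ℝ) : ℂ))) : ∃ k : ℝ, ∀ ε : ℝ, g ε = k := by
  set h : ℝ → ℝ := fun ε => Real.exp (g ε) with hh
  have han : ∀ z, AnalyticAt ℝ h z := fun z => (hg z).rexp
  have hpos : ∀ z, 0 < h z := fun z => Real.exp_pos _
  rcases Gup.kp _ g4 with h1 | ⟨K, lam, δ, M, hK, hδ, h1⟩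
  · exfalso
    obtain ⟨ε, hε⟩ := h1.exists
    have : h ε = 0 := by exact_mod_cast hε
    exact (hpos ε).ne' this
  · -- `lam = 0`
    have hdec : Tendsto (fun ε : ℝ => M * Real.exp (-(δ / ε))) (𝓝[>] 0) (𝓝 0) := by
      have := (S0.decay 0 δ hδ).const_mul M
      simpa using this
    have hlim1 : Tendsto (fun ε : ℝ => ((h ε : ℝ) : ℂ) * cexp (-((lam : ℂ) / (ε : ℂ)))) (𝓝[>] 0) (𝓝 K) := by
      rw [tendsto_iff_norm_sub_tendsto_zero]
      exact squeeze_zero' (Eventually.of_forall fun _ => norm_nonneg _) h1 hdec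
    have hlim2 : Tendsto (fun ε : ℝ => h ε * Real.exp (-(lam / ε))) (𝓝[>] 0) (𝓝 ‖K‖) := by
      refine hlim1.norm.congr fun ε => ?_
      rw [norm_mul, Complex.norm_real, Real.norm_eq_abs, abs_of_pos (hpos ε), Complex.norm_exp]
      congr 2
      have : -((lam : ℂ) / (ε : ℂ)) = ((-(lam / ε) : ℝ) : ℂ) := by push_cast; ring
      rw [this, Complex.ofReal_re]
    have hcont : Tendsto h (𝓝[>] 0) (𝓝 (h 0)) :=
      (han 0).continuousAt.tendsto.mono_left nhdsWithin_le_nhds
    have hlim3 : Tendsto (fun ε : ℝ => Real.exp (-(lam / ε))) (𝓝[>] 0) (𝓝 (‖K‖ / h 0)) := by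
      refine (hlim2.div hcont (hpos 0).ne').congr fun ε => ?_
      have := (hpos ε).ne'
      simp only [Pi.div_apply]
      field_simp
    have hKp : 0 < ‖K‖ / h 0 := div_pos (norm_pos_iff.2 hK) (hpos 0)
    have hlim4 : Tendsto (fun ε : ℝ => -(lam / ε)) (𝓝[>] 0) (𝓝 (Real.log (‖K‖ / h 0))) := by
      have := hlim3.log hKp.ne'
      simpa using this
    have hlim5 : Tendsto (fun ε : ℝ => -(lam / ε) * ε) (𝓝[>] 0) (𝓝 (Real.log (‖K‖ / h 0) * 0)) :=
      hlim4.mul (tendsto_id.mono_left nhdsWithin_le_nhds)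
    have hlim6 : Tendsto (fun ε : ℝ => -(lam / ε) * ε) (𝓝[>] 0) (𝓝 (-lam)) := by
      refine tendsto_const_nhds.congr' ?_
      filter_upwards [self_mem_nhdsWithin] with ε hε
      have hε' : (0 : ℝ) < ε := hε
      field_simp
    have hlam : lam = 0 := by
      have := tendsto_nhds_unique hlim5 hlim6
      simp at this
      linarith
    subst hlam
    have hflat : ∀ᶠ ε : ℝ in 𝓝[>] 0, |h ε - K.re| ≤ M * Real.exp (-(δ / ε)) := by
      filter_upwards [h1] with ε h2
      refine le_trans ?_ h2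
      have e0 : cexp (-(((0 : ℝ) : ℂ) / (ε : ℂ))) = 1 := by simp
      have := Complex.abs_re_le_norm (((h ε : ℝ) : ℂ) - K)
      rw [Complex.sub_re, Complex.ofReal_re] at this
      rw [e0, mul_one]
      exact this
    have hz := S0.flat_zero (fun ε => h ε - K.re) ((han 0).sub analyticAt_const) δ M hδ hflat
    have hall : ∀ z, h z - K.re = 0 := by
      have h1 : AnalyticOnNhd ℝ (fun ε => h ε - K.re) Set.univ := fun z _ => (han z).sub analyticAt_const
      have h2 : AnalyticOnNhd ℝ (fun _ : ℝ => (0 : ℝ)) Set.univ := fun z _ => analyticAt_const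
      have := h1.eq_of_eventuallyEq h2 (z₀ := 0) hz
      intro z
      exact congrFun this z
    refine ⟨Real.log K.re, fun ε => ?_⟩
    have h3 : h ε = K.re := by linarith [hall ε]
    have h4 := congrArg Real.log h3
    rw [hh] at h4
    simp only [Real.log_exp] at h4
    exact h4

theorem linear {r : ℕ} (B : Fin r → ℚ) (C : ℚ)
    (hmod : IsModularFn (nahmSum (1 : Matrix (Fin r) (Fin r) ℚ) B C)) :
    ∃ γ k : ℝ, ∀ ε : ℝ, EE B ε = γ * ε + k := by
  have hsym := Sym_be B C hmod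
  have hmod2 : IsModularFn (nahmSum (1 : Matrix (Fin r) (Fin r) ℚ) (fun i => be (B i))
      (CC (fun i => be (B i)))) := (suf _ hsym).1
  have g1 := rg_prod B C hmod
  have g2 := rg_prod _ _ hmod2
  have g3 := Rgc.rg_mul _ _ g1 (Rgc.rg_inv _ g2)
  set γ : ℝ := (C : ℝ) - ((CC (fun i => be (B i)) : ℚ) : ℝ) with hγ
  have g4 : RG (fun ε : ℝ => ((Real.exp (EE B ε - γ * ε) : ℝ) : ℂ)) := by
    refine Rgc.rg_congr _ _ g3 ?_
    filter_upwards [self_mem_nhdsWithin] with ε hε
    have hε' : (0 : ℝ) < ε := hε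
    rw [← Complex.ofReal_inv, ← Complex.ofReal_mul, ← Real.exp_neg, ← Real.exp_add, sum_LR B hε']
    congr 2
    rw [hγ]
    ring
  obtain ⟨k, hk⟩ := rg_const (fun ε => EE B ε - γ * ε)
    (fun z => (EE_analytic B z).sub (analyticAt_const.mul analyticAt_id)) g4
  exact ⟨γ, k, fun ε => by linarith [hk ε]⟩

/-- `C` is determined by `B` -/
theorem C_unique {r : ℕ} (B : Fin r → ℚ) (C C' : ℚ)
    (h : IsModularFn (nahmSum (1 : Matrix (Fin r) (Fin r) ℚ) B C))
    (h' : IsModularFn (nahmSum (1 : Matrix (Fin r) (Fin r) ℚ) B C')) : C = C' := by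
  have g3 := Rgc.rg_mul _ _ (rg_prod B C h) (Rgc.rg_inv _ (rg_prod B C' h'))
  have g4 : RG (fun ε : ℝ => ((Real.exp (((C' : ℝ) - C) * ε) : ℝ) : ℂ)) := by
    refine Rgc.rg_congr _ _ g3 (Eventually.of_forall fun ε => ?_)
    rw [← Complex.ofReal_inv, ← Complex.ofReal_mul, ← Real.exp_neg, ← Real.exp_add]
    congr 2
    ring
  obtain ⟨k, hk⟩ := rg_const (fun ε => ((C' : ℝ) - C) * ε)
    (fun z => analyticAt_const.mul analyticAt_id) g4
  have h0 := hk 0
  have h1 := hk 1
  have : (C' : ℝ) = C := by simp at h0 h1; linarith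
  exact_mod_cast this.symm

end

end Pool.Agent.R395.Nm
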