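import Pool.Agent.R395.Nm.Nec4

/-! # Necessity, part 5: conclusion -/

namespace Pool.Agent.R395.Nm

open Complex UpperHalfPlane ModularForm Filter Topology Asymptotics
open scoped Real MatrixGroups Manifold
open Pool.Agent.TH825.Nahm

noncomputable section

open Classical in
/-- number of `i` with `B_i ∈ s + ℕ` -/
def U {r : ℕ} (B : Fin r → ℚ) (s : ℚ) : ℕ :=
  (Finset.univ.filter fun i => ∃ m : ℕ, B i = s + m).card

open Classical in
/-- number of `i` with `-B_i ∈ s + ℕ` -/
def U' {r : ℕ} (B : Fin r → ℚ) (s : ℚ) : ℕ :=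
  (Finset.univ.filter fun i => ∃ m : ℕ, B i = -(s + m)).card

theorem U_step {r : ℕ} (B : Fin r → ℚ) (s : ℚ) :
    U B s = (Finset.univ.filter fun i => B i = s).card + U B (s + 1) := by
  classical
  unfold U
  rw [← Finset.card_union_of_disjoint]
  · congr 1
    ext i
    simp only [Finset.mem_filter, Finset.mem_univ, true_and, Finset.mem_union]
    constructor
    · rintro ⟨m, hm⟩
      rcases m with _ | m
      · left; simpa using hm
      · right; exact ⟨m, by rw [hm]; push_cast; ring⟩
    · rintro (h | ⟨m, hm⟩)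
      · exact ⟨0, by simpa using h⟩
      · exact ⟨m + 1, by rw [hm]; push_cast; ring⟩
  · rw [Finset.disjoint_filter]
    rintro i _ h ⟨m, hm⟩
    rw [h] at hm
    have : (0 : ℚ) ≤ m := Nat.cast_nonneg m
    linarith

theorem U'_step {r : ℕ} (B : Fin r → ℚ) (s : ℚ) :
    U' B s = (Finset.univ.filter fun i => B i = -s).card + U' B (s + 1) := by
  classical
  unfold U'
  rw [← Finset.card_union_of_disjoint]
  · congr 1
    ext i
    simp only [Finset.mem_filter, Finset.mem_univ, true_and, Finset.mem_union]
    constructor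
    · rintro ⟨m, hm⟩
      rcases m with _ | m
      · left; simpa using hm
      · right; exact ⟨m, by rw [hm]; push_cast; ring⟩
    · rintro (h | ⟨m, hm⟩)
      · exact ⟨0, by simpa using h⟩
      · exact ⟨m + 1, by rw [hm]; push_cast; ring⟩
  · rw [Finset.disjoint_filter]
    rintro i _ h ⟨m, hm⟩
    rw [h] at hm
    have : (0 : ℚ) ≤ m := Nat.cast_nonneg m
    linarith

open Classical in
theorem class_count {r : ℕ} (B : Fin r → ℚ) (s : ℚ) :
    (Finset.univ.filter fun i => ∃ m : ℤ, B i = s + m).card =
      U B (s + 1) + (Finset.univ.filter fun i => B i = s).card + U' B (1 - s) := by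
  unfold U U'
  rw [← Finset.card_union_of_disjoint, ← Finset.card_union_of_disjoint]
  · congr 1
    ext i
    simp only [Finset.mem_filter, Finset.mem_univ, true_and, Finset.mem_union]
    constructor
    · rintro ⟨m, hm⟩
      rcases lt_trichotomy m 0 with h | h | h
      · right
        obtain ⟨k, hk⟩ := Int.eq_ofNat_of_zero_le (show 0 ≤ -m - 1 by omega)
        refine ⟨k, ?_⟩
        have : (m : ℚ) = -(k : ℚ) - 1 := by
          have : m = -(k : ℤ) - 1 := by omega
          rw [this]; push_cast; ring
        rw [hm, this]; ring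
      · left; right; rw [hm, h]; simp
      · left; left
        obtain ⟨k, hk⟩ := Int.eq_ofNat_of_zero_le (show 0 ≤ m - 1 by omega)
        refine ⟨k, ?_⟩
        have : (m : ℚ) = (k : ℚ) + 1 := by
          have : m = (k : ℤ) + 1 := by omega
          rw [this]; push_cast; ring
        rw [hm, this]; ring
    · rintro ((⟨m, hm⟩ | h) | ⟨m, hm⟩)
      · exact ⟨m + 1, by rw [hm]; push_cast; ring⟩
      · exact ⟨0, by rw [h]; simp⟩
      · exact ⟨-m - 1, by rw [hm]; push_cast; ring⟩
  · rw [Finset.disjoint_left]
    intro i hi hi2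
    simp only [Finset.mem_union, Finset.mem_filter, Finset.mem_univ, true_and] at hi hi2
    obtain ⟨m, hm⟩ := hi2
    have h0 : (0 : ℚ) ≤ m := Nat.cast_nonneg m
    rcases hi with ⟨k, hk⟩ | hk
    · have h1 : (0 : ℚ) ≤ k := Nat.cast_nonneg k
      rw [hk] at hm; linarith
    · rw [hk] at hm; linarith
  · rw [Finset.disjoint_filter]
    rintro i _ ⟨m, hm⟩ h
    rw [h] at hm
    have : (0 : ℚ) ≤ m := Nat.cast_nonneg m
    linarith

theorem U_eq {r : ℕ} (B : Fin r → ℚ) (C : ℚ)
    (hmod : IsModularFn (nahmSum (1 : Matrix (Fin r) (Fin r) ℚ) B C)) (s : ℚ) (hs : 1 / 2 < s) :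
    U B s = U' B s := by
  classical
  obtain ⟨γ, k, hlin⟩ := linear B C hmod
  set S : Finset (Σ _ : Fin r, ℕ) := Finset.univ.sigma (fun i => Finset.range (kk (B i)).toNat) with hS
  set T : Finset (Σ _ : Fin r, ℕ) := Finset.univ.sigma (fun i => Finset.range (-kk (B i)).toNat) with hT
  have hk1 : ∀ i, (kk (B i) : ℝ) < (B i : ℝ) + 1 / 2 := by
    intro i
    have h1 := be_lt (B i)
    have h2 : -(1 / 2 : ℝ) < (be (B i) : ℝ) := by
      have := (Rat.cast_lt (K := ℝ)).2 h1
      push_cast at this
      exact this
    have h3 : (be (B i) : ℝ) = (B i : ℝ) - (kk (B i) : ℝ) := by unfold be; push_cast; rfl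
    linarith
  have hk2 : ∀ i, (B i : ℝ) - 1 / 2 ≤ (kk (B i) : ℝ) := by
    intro i
    have h1 := be_le (B i)
    have h2 : (be (B i) : ℝ) ≤ 1 / 2 := by
      have := (Rat.cast_le (K := ℝ)).2 h1
      push_cast at this
      exact this
    have h3 : (be (B i) : ℝ) = (B i : ℝ) - (kk (B i) : ℝ) := by unfold be; push_cast; rfl
    linarith
  have key := li S T (fun p => (B p.1 : ℝ) - 1 / 2 - p.2) (fun p => -(B p.1 : ℝ) - 1 / 2 - p.2)
    (by
      rintro ⟨i, m⟩ hp
      rw [hS, Finset.mem_sigma, Finset.mem_range] at hp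
      have h1 : ((m : ℤ) : ℝ) + 1 ≤ (kk (B i) : ℝ) := by
        have : (m : ℤ) + 1 ≤ kk (B i) := by
          have := hp.2
          simp only at this
          omega
        exact_mod_cast this
      have h2 := hk1 i
      push_cast at h1
      simp only
      linarith)
    (by
      rintro ⟨i, m⟩ hp
      rw [hT, Finset.mem_sigma, Finset.mem_range] at hp
      have h1 : ((m : ℤ) : ℝ) + 1 ≤ -(kk (B i) : ℝ) := by
        have : (m : ℤ) + 1 ≤ -kk (B i) := by
          have := hp.2
          simp only at this
          omega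
        exact_mod_cast this
      have h2 := hk2 i
      push_cast at h1
      simp only
      linarith)
    (γ - ∑ i, RR (B i)) k
    (by
      intro ε hε
      have h1 := hlin ε
      unfold EE at h1
      rw [Finset.sum_add_distrib, Finset.sum_add_distrib, Finset.sum_neg_distrib,
        ← Finset.mul_sum] at h1
      rw [hS, hT, Finset.sum_sigma, Finset.sum_sigma]
      unfold PP QQn at h1
      simp only
      linarith)
    ((s : ℝ) - 1 / 2) (by
      have : (1 / 2 : ℝ) < (s : ℝ) := by
        have := (Rat.cast_lt (K := ℝ)).2 hs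
        push_cast at this
        exact this
      linarith)
  have e1 : U B s = (S.filter fun p => (B p.1 : ℝ) - 1 / 2 - p.2 = (s : ℝ) - 1 / 2).card := by
    symm
    unfold U
    refine Finset.card_bij (fun p _ => p.1) ?_ ?_ ?_
    · rintro ⟨i, m⟩ hp
      simp only [Finset.mem_filter, Finset.mem_univ, true_and] at hp ⊢
      refine ⟨m, ?_⟩
      have : (B i : ℝ) = (s : ℝ) + m := by linarith [hp.2]
      exact_mod_cast this
    · rintro ⟨i, m⟩ hp ⟨j, l⟩ hq hij
      simp only [Finset.mem_filter] at hp hq hij
      subst hij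
      have : (m : ℝ) = (l : ℝ) := by linarith [hp.2, hq.2]
      have h3 : m = l := by exact_mod_cast this
      rw [h3]
    · intro i hi
      simp only [Finset.mem_filter, Finset.mem_univ, true_and] at hi
      obtain ⟨m, hm⟩ := hi
      refine ⟨⟨i, m⟩, ?_, rfl⟩
      rw [Finset.mem_filter, hS, Finset.mem_sigma, Finset.mem_range]
      refine ⟨⟨Finset.mem_univ _, ?_⟩, ?_⟩
      · have h1 : (m : ℤ) < kk (B i) := by
          unfold kk
          rw [Int.lt_ceil, hm]
          push_cast
          linarith
        simp only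
        omega
      · simp only
        rw [hm]; push_cast; ring
  have e2 : U' B s = (T.filter fun p => -(B p.1 : ℝ) - 1 / 2 - p.2 = (s : ℝ) - 1 / 2).card := by
    symm
    unfold U'
    refine Finset.card_bij (fun p _ => p.1) ?_ ?_ ?_
    · rintro ⟨i, m⟩ hp
      simp only [Finset.mem_filter, Finset.mem_univ, true_and] at hp ⊢
      refine ⟨m, ?_⟩
      have : (B i : ℝ) = -((s : ℝ) + m) := by linarith [hp.2]
      exact_mod_cast this
    · rintro ⟨i, m⟩ hp ⟨j, l⟩ hq hij
      simp only [Finset.mem_filter] at hp hq hij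
      subst hij
      have : (m : ℝ) = (l : ℝ) := by linarith [hp.2, hq.2]
      have h3 : m = l := by exact_mod_cast this
      rw [h3]
    · intro i hi
      simp only [Finset.mem_filter, Finset.mem_univ, true_and] at hi
      obtain ⟨m, hm⟩ := hi
      refine ⟨⟨i, m⟩, ?_, rfl⟩
      rw [Finset.mem_filter, hT, Finset.mem_sigma, Finset.mem_range]
      refine ⟨⟨Finset.mem_univ _, ?_⟩, ?_⟩
      · have h1 : kk (B i) ≤ -(m : ℤ) - 1 := by
          unfold kk
          rw [Int.ceil_le, hm]
          push_cast
          linarith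
        simp only
        omega
      · simp only
        rw [hm]; push_cast; ring
  rw [e1, e2]
  exact key

theorem nec {r : ℕ} (B : Fin r → ℚ) (C : ℚ)
    (hmod : IsModularFn (nahmSum (1 : Matrix (Fin r) (Fin r) ℚ) B C)) : Sym B := by
  classical
  have big : ∀ b : ℚ, 1 / 2 < b → (Finset.univ.filter fun i => B i = b).card =
      (Finset.univ.filter fun i => B i = -b).card := by
    intro b hb
    have h1 := U_step B b
    have h2 := U'_step B b
    have h3 := U_eq B C hmod b hb
    have h4 := U_eq B C hmod (b + 1) (by linarith)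
    omega
  intro b hb1 hb2
  rcases lt_or_gt_of_ne hb1 with h | h
  · rcases lt_or_gt_of_ne hb2 with h' | h'
    · have := big (-b) (by linarith)
      rw [neg_neg] at this
      exact this.symm
    · have h1 := class_count B b
      have h2 := class_count B (-b)
      have h3 := class_sym B C hmod b
      have h4 := U_eq B C hmod (b + 1) (by linarith)
      have h5 := U_eq B C hmod (1 - b) (by linarith)
      have e1 : -b + 1 = 1 - b := by ring
      have e2 : 1 - -b = b + 1 := by ring
      rw [e1, e2] at h2
      omega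
  · exact big b h

end

end Pool.Agent.R395.Nm
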