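import Pool.Agent.R395.Nm.Fin
import Pool.Agent.TH825.Nahm.Psi
import Pool.Agent.TH825.Nahm.Qpm
import Pool.Agent.TH825.Nahm.Euler
import Pool.Agent.TH825.Nahm.Gate

/-! # The Nahm sum of the identity matrix as a product -/

namespace Pool.Agent.R395.Nm

open Complex UpperHalfPlane ModularForm Filter Topology
open scoped Real MatrixGroups
open Pool.Agent.TH825.Nahm

noncomputable section

/-- `ε = -2πiτ` -/
def ep (τ : ℂ) : ℂ := -(2 * π * Complex.I * τ)

theorem ep_re (τ : ℂ) : (ep τ).re = 2 * π * τ.im := by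
  unfold ep; simp

theorem ep_re_pos {τ : ℂ} (h : 0 < τ.im) : 0 < (ep τ).re := by
  rw [ep_re]; positivity

/-- `(-q^{1/2+b}; q)_∞` -/
def FB (b : ℝ) (τ : ℂ) : ℂ := QP (-1) (1 / 2 + b) (ep τ)

/-- the one-variable factor -/
def fac (b : ℝ) (τ : ℂ) (v : ℕ) : ℂ :=
  cexp (-(ep τ * ((v : ℂ) ^ 2 / 2 + (b : ℂ) * (v : ℂ)))) * 1 ^ v / qf (cexp (-ep τ)) v

theorem expo_one {r : ℕ} (B : Fin r → ℚ) (C : ℚ) (n : Fin r → ℕ) :
    expo (1 : Matrix (Fin r) (Fin r) ℚ) B C n =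
      ∑ i, ((n i : ℚ) ^ 2 / 2 + B i * n i) + C := by
  unfold expo
  have h : ∀ i, ∑ j, (1 : Matrix (Fin r) (Fin r) ℚ) i j * n i * n j = (n i : ℚ) ^ 2 := by
    intro i
    rw [Finset.sum_eq_single i]
    · simp [sq]
    · intro j _ hj
      simp [Matrix.one_apply_ne hj.symm]
    · simp
  simp_rw [h]
  rw [Finset.sum_add_distrib, Finset.mul_sum]
  congr 2
  exact Finset.sum_congr rfl fun i _ => by ring

theorem term_one {r : ℕ} (B : Fin r → ℚ) (C : ℚ) (τ : ℂ) (n : Fin r → ℕ) :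
    nahmTerm (1 : Matrix (Fin r) (Fin r) ℚ) B C τ n =
      cexp (2 * π * Complex.I * τ * C) * ∏ i, fac (B i : ℝ) τ (n i) := by
  unfold nahmTerm fac
  rw [expo_one, Finset.prod_div_distrib, ← mul_div_assoc]
  have e : cexp (-ep τ) = cexp (2 * π * Complex.I * τ) := by unfold ep; rw [neg_neg]
  rw [e]
  congr 1
  simp only [one_pow, mul_one]
  rw [← Complex.exp_sum, ← Complex.exp_add]
  congr 1
  push_cast
  rw [mul_add, Finset.mul_sum, add_comm]
  congr 1
  refine Finset.sum_congr rfl fun i _ => ?_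
  unfold ep
  ring

theorem fac_sum (b : ℝ) {τ : ℂ} (hτ : 0 < τ.im) :
    Summable (fun v => ‖fac b τ v‖) ∧ ∑' v, fac b τ v = FB b τ := by
  exact Euler.main 1 b (ep τ) (ep_re_pos hτ)

theorem term_summable {r : ℕ} (B : Fin r → ℚ) (C : ℚ) {τ : ℂ} (hτ : 0 < τ.im) :
    Summable (fun n => ‖nahmTerm (1 : Matrix (Fin r) (Fin r) ℚ) B C τ n‖) := by
  have h := (Psi.pi_sum r (fun i => fac (B i : ℝ) τ) (fun i => (fac_sum _ hτ).1)).1
  refine (h.mul_left ‖cexp (2 * π * Complex.I * τ * C)‖).congr fun n => ?_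
  rw [term_one, norm_mul]

theorem sum_one {r : ℕ} (B : Fin r → ℚ) (C : ℚ) (τ : ℍ) :
    nahmSum (1 : Matrix (Fin r) (Fin r) ℚ) B C τ =
      cexp (2 * π * Complex.I * τ * C) * ∏ i, FB (B i : ℝ) τ := by
  unfold nahmSum
  simp_rw [term_one]
  rw [tsum_mul_left,
    (Psi.pi_sum r (fun i => fac (B i : ℝ) τ) (fun i => (fac_sum _ τ.im_pos).1)).2]
  congr 1
  exact Finset.prod_congr rfl fun i _ => (fac_sum _ τ.im_pos).2

/-! ## Jacobi's triple product -/

theorem qp_shift_arg (b : ℝ) (ε : ℂ) :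
    QP (-cexp (-(ε * b))) (1 / 2) ε = QP (-1) (1 / 2 + b) ε := by
  unfold QP
  refine tprod_congr fun n => ?_
  rw [neg_mul, neg_mul, one_mul, ← Complex.exp_add]
  congr 3
  push_cast
  ring

theorem qp_one_eta (τ : ℂ) :
    ModularForm.eta τ = cexp (2 * π * Complex.I * τ / 24) * QP 1 1 (ep τ) := by
  unfold ModularForm.eta QP
  congr 1
  refine tprod_congr fun n => ?_
  rw [eta_q_eq_cexp]
  congr 1
  rw [one_mul]
  congr 1
  unfold ep
  push_cast
  ring

theorem FB_mul (b : ℝ) {τ : ℂ} (hτ : 0 < τ.im) :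
    FB b τ * FB (-b) τ * QP 1 1 (ep τ) = jacobiTheta₂ (b * τ) τ := by
  have hJ := Jtp.main Euler.main (Gate.main Qpm.main Euler.main) (cexp (-(ep τ * b))) (ep τ) (ep_re_pos hτ)
    (Complex.exp_ne_zero _)
  rw [qp_shift_arg] at hJ
  have e1 : (cexp (-(ep τ * b)))⁻¹ = cexp (-(ep τ * ((-b : ℝ) : ℂ))) := by
    rw [← Complex.exp_neg]; congr 1; push_cast; ring
  rw [e1, qp_shift_arg] at hJ
  unfold FB
  rw [hJ]
  unfold jacobiTheta₂
  refine tsum_congr fun k => ?_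
  unfold jacobiTheta₂_term
  rw [← Complex.exp_int_mul, ← Complex.exp_add]
  congr 1
  unfold ep
  ring

theorem FB_ne (b : ℝ) {τ : ℂ} (hτ : 0 < τ.im) : FB b τ ≠ 0 := by
  unfold FB
  have := (Qpm.main (-1) (1 / 2 + b) (ep τ) (ep_re_pos hτ)).2.2.2.2.2.1 (by simp)
  exact this (fun h => by norm_num at h)

theorem FB_mul_Gf (b : ℝ) {τ : ℂ} (hτ : 0 < τ.im) :
    FB b τ * FB (-b) τ =
      cexp (2 * π * Complex.I * τ * (1 / 24 - (b : ℂ) ^ 2 / 2)) * Gf 0 b τ := by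
  have h1 := FB_mul b hτ
  have h2 := qp_one_eta τ
  have h3 : ModularForm.eta τ ≠ 0 := ModularForm.eta_ne_zero hτ
  have h4 : QP 1 1 (ep τ) ≠ 0 := fun h => h3 (by rw [h2, h, mul_zero])
  unfold Gf
  rw [Complex.ofReal_zero, add_zero, ← h1, h2]
  have e : cexp (2 * π * Complex.I * τ * (1 / 24 - (b : ℂ) ^ 2 / 2)) *
      cexp (π * Complex.I * (b : ℂ) ^ 2 * τ) = cexp (2 * π * Complex.I * τ / 24) := by
    rw [← Complex.exp_add]; congr 1; ring
  have h5 := Complex.exp_ne_zero (2 * π * Complex.I * τ / 24)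
  rw [eq_comm, ← mul_div_assoc, div_eq_iff (mul_ne_zero h5 h4)]
  linear_combination (FB b τ * FB (-b) τ * QP 1 1 (ep τ)) * e

theorem FB_half {τ : ℂ} (hτ : 0 < τ.im) : FB (-1 / 2) τ = 2 * FB (1 / 2) τ := by
  unfold FB
  have := Qpm.shift (-1) 0 (ep τ) (ep_re_pos hτ)
  norm_num at this ⊢
  exact this

theorem FB_diff (b : ℝ) : DifferentiableOn ℂ (FB b) {z : ℂ | 0 < z.im} := by
  have hopen : IsOpen {z : ℂ | 0 < z.im} := isOpen_lt continuous_const Complex.continuous_im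
  have hd : ∀ n : ℕ, Differentiable ℂ (fun z : ℂ => cexp (-(ep z * ((n : ℂ) + ((1 / 2 + b : ℝ) : ℂ))))) := by
    intro n; unfold ep; fun_prop
  have h1 : HasProdLocallyUniformlyOn
      (fun (n : ℕ) (z : ℂ) => 1 + cexp (-(ep z * ((n : ℂ) + ((1 / 2 + b : ℝ) : ℂ)))))
      (fun z => ∏' n : ℕ, (1 + cexp (-(ep z * ((n : ℂ) + ((1 / 2 + b : ℝ) : ℂ))))))
      {z : ℂ | 0 < z.im} := by
    refine hasProdLocallyUniformlyOn_of_forall_compact hopen fun K hK hcK => ?_
    rcases K.eq_empty_or_nonempty with hN | hN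
    · simpa [hasProdUniformlyOn_iff_tendstoUniformlyOn, hN] using tendstoUniformlyOn_empty
    obtain ⟨z1, hz1, hmin⟩ := hcK.exists_isMinOn hN Complex.continuous_im.continuousOn
    obtain ⟨z2, hz2, hmax⟩ := hcK.exists_isMaxOn hN Complex.continuous_im.continuousOn
    have hc : 0 < z1.im := hK hz1
    have hs : Summable (fun n : ℕ => Real.exp (2 * π * z2.im * |1 / 2 + b|) *
        Real.exp (-(2 * π * z1.im)) ^ n) := by
      refine Summable.mul_left _ (summable_geometric_of_lt_one (Real.exp_pos _).le ?_)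
      rw [Real.exp_lt_one_iff]
      have : 0 < 2 * π * z1.im := by positivity
      linarith
    refine hs.hasProdUniformlyOn_nat_one_add hcK (.of_forall fun n z hz => ?_)
      (fun n => (hd n).continuous.continuousOn)
    have h2 : ((n : ℂ) + ((1 / 2 + b : ℝ) : ℂ)) = (((n : ℝ) + (1 / 2 + b) : ℝ) : ℂ) := by push_cast; ring
    rw [Complex.norm_exp, h2, neg_re, re_mul_ofReal, ep_re, ← Real.exp_nat_mul, ← Real.exp_add]
    refine Real.exp_le_exp.2 ?_
    have h3 : z1.im ≤ z.im := hmin hz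
    have h4 : z.im ≤ z2.im := hmax hz
    have h5 : -(1 / 2 + b) ≤ |1 / 2 + b| := neg_le_abs _
    have h6 : 0 ≤ |1 / 2 + b| := abs_nonneg _
    have h7 : 0 < z.im := hK hz
    have h8 : (n : ℝ) * z1.im ≤ n * z.im := by gcongr
    have h9 : z.im * -(1 / 2 + b) ≤ z2.im * |1 / 2 + b| := by
      calc z.im * -(1 / 2 + b) ≤ z.im * |1 / 2 + b| := by gcongr
        _ ≤ _ := by gcongr
    nlinarith [Real.pi_pos, mul_le_mul_of_nonneg_left h8 Real.pi_pos.le, mul_le_mul_of_nonneg_left h9 Real.pi_pos.le]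
  have h2 := h1.differentiableOn (.of_forall fun _ => by
    simpa [Finset.prod_fn] using
      DifferentiableOn.finsetProd (fun n _ =>
        ((differentiable_const (1 : ℂ)).add (hd n)).differentiableOn)) hopen
  refine h2.congr fun z _ => ?_
  unfold FB QP
  refine tprod_congr fun n => ?_
  ring

end

end Pool.Agent.R395.Nm
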