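import Pool.Agent.R395.Nm.Prod

/-! # Sufficiency: symmetric `B` give modular functions -/

namespace Pool.Agent.R395.Nm

open Complex UpperHalfPlane ModularForm Filter Topology Asymptotics
open scoped Real MatrixGroups Manifold
open Pool.Agent.TH825.Nahm

noncomputable section

/-- A function on the upper half-plane is a modular function (of weight `0`, holomorphic on `ℍ`)
if it is invariant under a subgroup of finite index of `SL(2, ℤ)`, holomorphic on `ℍ`, and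
meromorphic at every cusp, i.e. for every `γ ∈ SL(2, ℤ)`, `f(γτ) = O(e^{c Im τ})` as
`Im τ → ∞`, for some `c`. -/
def IsModularFunction (f : ℍ → ℂ) : Prop :=
  (∃ Γ : Subgroup SL(2, ℤ), Γ.FiniteIndex ∧ ∀ γ ∈ Γ, ∀ τ : ℍ, f (γ • τ) = f τ) ∧
  MDifferentiable 𝓘(ℂ) 𝓘(ℂ) f ∧
  ∀ γ : SL(2, ℤ), ∃ c : ℝ, (fun τ : ℍ => f (γ • τ)) =O[atImInfty] fun τ : ℍ => Real.exp (c * τ.im)

/-- the symmetry condition -/
def Sym {r : ℕ} (B : Fin r → ℚ) : Prop :=
  ∀ b : ℚ, b ≠ 1 / 2 → b ≠ -1 / 2 →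
    (Finset.univ.filter fun i => B i = b).card = (Finset.univ.filter fun i => B i = -b).card

theorem prod_sym {r : ℕ} (B : Fin r → ℚ) (hB : Sym B) (h : ℚ → ℂ) :
    ∏ i ∈ Finset.univ.filter (fun i => ¬ (B i = 1 / 2 ∨ B i = -1 / 2)), h (B i) =
    ∏ i ∈ Finset.univ.filter (fun i => ¬ (B i = 1 / 2 ∨ B i = -1 / 2)), h (-B i) := by
  classical
  set s := Finset.univ.filter (fun i => ¬ (B i = 1 / 2 ∨ B i = -1 / 2)) with hs
  have key : Multiset.map B s.val = Multiset.map (fun i => -B i) s.val := by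
    ext b
    rw [Multiset.count_map, Multiset.count_map]
    have e1 : (Multiset.filter (fun a => b = B a) s.val).card =
        (s.filter fun i => B i = b).card := by
      rw [Finset.card_def, Finset.filter_val]
      congr 1
      exact Multiset.filter_congr fun i _ => eq_comm
    have e2 : (Multiset.filter (fun a => b = -B a) s.val).card =
        (s.filter fun i => B i = -b).card := by
      rw [Finset.card_def, Finset.filter_val]
      congr 1
      refine Multiset.filter_congr fun i _ => ?_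
      constructor
      · intro h; rw [h, neg_neg]
      · intro h; rw [h, neg_neg]
    rw [e1, e2]
    by_cases hb : b = 1 / 2 ∨ b = -1 / 2
    · rw [Finset.card_eq_zero.2, Finset.card_eq_zero.2]
      · rw [Finset.filter_eq_empty_iff]
        intro i hi hbi
        rw [hs, Finset.mem_filter] at hi
        apply hi.2
        rcases hb with rfl | rfl
        · right; rw [hbi]; norm_num
        · left; rw [hbi]; norm_num
      · rw [Finset.filter_eq_empty_iff]
        intro i hi hbi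
        rw [hs, Finset.mem_filter] at hi
        apply hi.2
        rw [hbi]; exact hb
    · push Not at hb
      have h3 : s.filter (fun i => B i = b) = Finset.univ.filter fun i => B i = b := by
        ext i
        simp only [hs, Finset.mem_filter, Finset.mem_univ, true_and]
        constructor
        · exact fun h => h.2
        · intro h; refine ⟨?_, h⟩; rw [h]; push Not; exact hb
      have h4 : s.filter (fun i => B i = -b) = Finset.univ.filter fun i => B i = -b := by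
        ext i
        simp only [hs, Finset.mem_filter, Finset.mem_univ, true_and]
        constructor
        · exact fun h => h.2
        · intro h; refine ⟨?_, h⟩; rw [h]; push Not
          constructor
          · intro h5; apply hb.2; linarith
          · intro h5; apply hb.1; linarith
      rw [h3, h4]
      exact hB b hb.1 hb.2
  have := congrArg (fun m => (Multiset.map h m).prod) key
  simp only [Multiset.map_map] at this
  exact this

theorem prod_ratio {r : ℕ} (B : Fin r → ℚ) (hB : Sym B) : ∃ κ : ℂ, κ ≠ 0 ∧ ∀ τ : ℍ,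
    ∏ i, FB (B i : ℝ) τ = κ * ∏ i, FB (-(B i : ℝ)) τ := by
  classical
  refine ⟨∏ i ∈ Finset.univ.filter (fun i => B i = 1 / 2 ∨ B i = -1 / 2),
    (if B i = 1 / 2 then (1 / 2 : ℂ) else 2), ?_, fun τ => ?_⟩
  · refine Finset.prod_ne_zero_iff.2 fun i _ => ?_
    split_ifs <;> norm_num
  · rw [← Finset.prod_filter_mul_prod_filter_not Finset.univ
      (fun i => B i = 1 / 2 ∨ B i = -1 / 2) (fun i => FB (B i : ℝ) τ),
      ← Finset.prod_filter_mul_prod_filter_not Finset.univ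
      (fun i => B i = 1 / 2 ∨ B i = -1 / 2) (fun i => FB (-(B i : ℝ)) τ), ← mul_assoc,
      ← Finset.prod_mul_distrib]
    congr 1
    · refine Finset.prod_congr rfl fun i hi => ?_
      rw [Finset.mem_filter] at hi
      have hh := FB_half τ.im_pos
      rcases hi.2 with h | h
      · rw [if_pos h, h]
        have e1 : (((1 / 2 : ℚ) : ℚ) : ℝ) = 1 / 2 := by norm_num
        rw [e1, show -(1 / 2 : ℝ) = -1 / 2 by norm_num, hh]; ring
      · have : B i ≠ 1 / 2 := by rw [h]; norm_num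
        rw [if_neg this, h]
        have e1 : (((-1 / 2 : ℚ) : ℚ) : ℝ) = -1 / 2 := by norm_num
        rw [e1, show -(-1 / 2 : ℝ) = 1 / 2 by norm_num, hh]
    · have := prod_sym B hB (fun b => FB (b : ℝ) τ)
      simpa using this

/-- the constant `C` -/
def CC {r : ℕ} (B : Fin r → ℚ) : ℚ := ∑ i, ((B i) ^ 2 / 4 - 1 / 48)

theorem sq_eq {r : ℕ} (B : Fin r → ℚ) (hB : Sym B) : ∃ κ : ℂ, κ ≠ 0 ∧ ∀ τ : ℍ,
    nahmSum (1 : Matrix (Fin r) (Fin r) ℚ) B (CC B) τ ^ 2 = κ * ∏ i, Gf 0 (B i : ℝ) τ := by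
  obtain ⟨κ, hκ, h⟩ := prod_ratio B hB
  refine ⟨κ, hκ, fun τ => ?_⟩
  rw [sum_one, mul_pow]
  have h1 : (∏ i, FB (B i : ℝ) τ) ^ 2 =
      κ * ∏ i, (cexp (2 * π * Complex.I * τ * (1 / 24 - ((B i : ℝ) : ℂ) ^ 2 / 2)) *
        Gf 0 (B i : ℝ) τ) := by
    have h2 : ∀ i, cexp (2 * π * Complex.I * τ * (1 / 24 - ((B i : ℝ) : ℂ) ^ 2 / 2)) *
        Gf 0 (B i : ℝ) τ = FB (B i : ℝ) τ * FB (-(B i : ℝ)) τ := fun i =>
      (FB_mul_Gf (B i : ℝ) τ.im_pos).symm
    simp_rw [h2]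
    rw [Finset.prod_mul_distrib, h τ]
    ring
  rw [h1, Finset.prod_mul_distrib, ← Complex.exp_sum, ← Complex.exp_nat_mul]
  have h3 : ((2 : ℕ) : ℂ) * (2 * π * Complex.I * τ * (CC B : ℚ)) +
      ∑ i, (2 * π * Complex.I * τ * (1 / 24 - ((B i : ℝ) : ℂ) ^ 2 / 2)) = 0 := by
    unfold CC
    push_cast
    rw [← Finset.mul_sum, ← mul_assoc, mul_comm (2 : ℂ) (2 * π * Complex.I * τ), mul_assoc,
      ← mul_add, Finset.mul_sum, ← Finset.sum_add_distrib, Finset.sum_eq_zero, mul_zero]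
    intro i _
    ring
  calc cexp (((2 : ℕ) : ℂ) * (2 * π * Complex.I * τ * (CC B : ℚ))) *
      (κ * (cexp (∑ i, (2 * π * Complex.I * τ * (1 / 24 - ((B i : ℝ) : ℂ) ^ 2 / 2))) *
        ∏ i, Gf 0 (B i : ℝ) τ))
      = cexp (((2 : ℕ) : ℂ) * (2 * π * Complex.I * τ * (CC B : ℚ)) +
      ∑ i, (2 * π * Complex.I * τ * (1 / 24 - ((B i : ℝ) : ℂ) ^ 2 / 2))) *
        (κ * ∏ i, Gf 0 (B i : ℝ) τ) := by rw [Complex.exp_add]; ring
    _ = _ := by rw [h3, Complex.exp_zero, one_mul]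

theorem exists_denom {r : ℕ} (B : Fin r → ℚ) : ∃ n : ℕ, 0 < n ∧ ∀ i, ∃ v : ℤ,
    (B i : ℝ) = (v : ℝ) / ((2 * n : ℕ) : ℝ) := by
  refine ⟨∏ i, (B i).den, Finset.prod_pos fun i _ => (B i).den_pos, fun i => ?_⟩
  have hd : (B i).den ∣ ∏ i, (B i).den := Finset.dvd_prod_of_mem _ (Finset.mem_univ i)
  obtain ⟨m, hm⟩ := hd
  refine ⟨2 * (B i).num * m, ?_⟩
  rw [hm]
  have hm0 : (m : ℝ) ≠ 0 := by
    intro h
    have h' : m = 0 := by exact_mod_cast h
    have := Finset.prod_pos (s := Finset.univ) (f := fun i => (B i).den) fun i _ => (B i).den_pos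
    rw [hm, h'] at this
    simp at this
  have hd0 : ((B i).den : ℝ) ≠ 0 := by exact_mod_cast (B i).den_pos.ne'
  have : (B i : ℝ) = ((B i).num : ℝ) / ((B i).den : ℝ) := by
    exact_mod_cast (Rat.num_div_den (B i)).symm
  rw [this]
  push_cast
  field_simp

theorem finite_sqrt (X : Set (ℍ → ℂ)) (hX : X.Finite) :
    {g : ℍ → ℂ | Continuous g ∧ (∀ τ, g τ ≠ 0) ∧ (fun τ => g τ ^ 2) ∈ X}.Finite := by
  have h1 : {g : ℍ → ℂ | Continuous g ∧ (∀ τ, g τ ≠ 0) ∧ (fun τ => g τ ^ 2) ∈ X} ⊆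
      ⋃ h ∈ X, {g : ℍ → ℂ | Continuous g ∧ (∀ τ, g τ ≠ 0) ∧ (fun τ => g τ ^ 2) = h} := by
    intro g hg
    simp only [Set.mem_iUnion]
    exact ⟨_, hg.2.2, hg.1, hg.2.1, rfl⟩
  refine Set.Finite.subset (hX.biUnion fun h _ => ?_) h1
  rcases Set.eq_empty_or_nonempty
    {g : ℍ → ℂ | Continuous g ∧ (∀ τ, g τ ≠ 0) ∧ (fun τ => g τ ^ 2) = h} with h2 | ⟨g0, hg0⟩
  · rw [h2]; exact Set.finite_empty
  · refine Set.Finite.subset (Set.toFinite {g0, -g0}) ?_
    intro g hg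
    have hsq : Set.EqOn (g ^ 2) (g0 ^ 2) Set.univ := by
      intro τ _
      exact congrFun (hg.2.2.trans hg0.2.2.symm) τ
    rcases isPreconnected_univ.eq_or_eq_neg_of_sq_eq hg.1.continuousOn hg0.1.continuousOn hsq
      (fun {τ} _ => hg0.2.1 τ) with h3 | h3
    · left; exact funext fun τ => h3 (Set.mem_univ τ)
    · right; exact funext fun τ => h3 (Set.mem_univ τ)

theorem sum_one_ne {r : ℕ} (B : Fin r → ℚ) (C : ℚ) (τ : ℍ) :
    nahmSum (1 : Matrix (Fin r) (Fin r) ℚ) B C τ ≠ 0 := by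
  rw [sum_one]
  exact mul_ne_zero (Complex.exp_ne_zero _)
    (Finset.prod_ne_zero_iff.2 fun i _ => FB_ne _ τ.im_pos)

theorem sum_one_diff {r : ℕ} (B : Fin r → ℚ) (C : ℚ) :
    DifferentiableOn ℂ (nahmSum (1 : Matrix (Fin r) (Fin r) ℚ) B C ∘ UpperHalfPlane.ofComplex)
      {z : ℂ | 0 < z.im} := by
  have h1 : DifferentiableOn ℂ (fun z : ℂ => cexp (2 * π * Complex.I * z * C) *
      ∏ i, FB (B i : ℝ) z) {z : ℂ | 0 < z.im} := by
    refine DifferentiableOn.mul (Differentiable.differentiableOn (by fun_prop)) ?_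
    exact DifferentiableOn.fun_finsetProd (fun i _ => FB_diff _)
  refine h1.congr fun z hz => ?_
  rw [Function.comp_apply, UpperHalfPlane.ofComplex_apply_of_im_pos hz, sum_one]

theorem sum_one_mdiff {r : ℕ} (B : Fin r → ℚ) (C : ℚ) :
    MDifferentiable 𝓘(ℂ) 𝓘(ℂ) (nahmSum (1 : Matrix (Fin r) (Fin r) ℚ) B C) := by
  rw [UpperHalfPlane.mdifferentiable_iff]
  exact sum_one_diff B C

theorem norm_Gf_bound (a b : ℝ) : ∃ c : ℝ,
    (fun τ : ℍ => Gf a b τ) =O[atImInfty] fun τ : ℍ => Real.exp (c * τ.im) := by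
  -- the theta factor is bounded
  have hsum : Summable (fun n : ℤ => Real.exp (-π * ((n : ℝ) + b) ^ 2)) := by
    have h := (hasSum_jacobiTheta₂_term ((b : ℂ) * Complex.I) (τ := Complex.I) (by simp)).summable.norm
    refine (h.mul_left (Real.exp (-π * b ^ 2))).congr fun n => ?_
    rw [norm_jacobiTheta₂_term, ← Real.exp_add]
    congr 1
    simp
    ring
  have h1 : ∀ τ : ℍ, 1 ≤ τ.im → ‖cexp (π * Complex.I * (b : ℂ) ^ 2 * τ) *
      jacobiTheta₂ ((b : ℂ) * τ + a) τ‖ ≤ ∑' n : ℤ, Real.exp (-π * ((n : ℝ) + b) ^ 2) := by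
    intro τ hτ
    rw [jacobiTheta₂, ← tsum_mul_left]
    refine tsum_of_norm_bounded hsum.hasSum fun n => ?_
    rw [norm_mul, norm_jacobiTheta₂_term, Complex.norm_exp, ← Real.exp_add]
    refine Real.exp_le_exp.2 ?_
    have e1 : (π * Complex.I * (b : ℂ) ^ 2 * (τ : ℂ)).re = -(π * b ^ 2 * τ.im) := by
      have : π * Complex.I * (b : ℂ) ^ 2 * (τ : ℂ) = ((π * b ^ 2 : ℝ) : ℂ) * (Complex.I * τ) := by
        push_cast; ring
      rw [this, Complex.re_ofReal_mul, Complex.I_mul_re, UpperHalfPlane.coe_im]; ring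
    have e2 : ((b : ℂ) * (τ : ℂ) + (a : ℂ)).im = b * τ.im := by
      simp
    rw [e1, e2]
    have e3 : ((τ : ℂ)).im = τ.im := rfl
    rw [e3]
    have h5 : 0 ≤ π * ((n : ℝ) + b) ^ 2 * (τ.im - 1) := by
      have : 0 ≤ τ.im - 1 := by linarith
      positivity
    nlinarith [h5]
  obtain ⟨K, hK⟩ : ∃ K, K = ∑' n : ℤ, Real.exp (-π * ((n : ℝ) + b) ^ 2) := ⟨_, rfl⟩
  rw [← hK] at h1
  have hK0 : 0 ≤ K := by rw [hK]; exact tsum_nonneg fun n => (Real.exp_pos _).le
  obtain ⟨c, hc⟩ := ModularForm.exp_isBigO_discriminant.bound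
  refine ⟨2 * π, ?_⟩
  refine IsBigO.of_bound (1 + K ^ 24 * |c|) ?_
  have hev : ∀ᶠ τ : ℍ in atImInfty, 1 ≤ τ.im := by
    rw [Filter.Eventually, atImInfty_mem]; exact ⟨1, fun τ h => h⟩
  filter_upwards [hc, hev] with τ h2 h3
  have h4 := h1 τ h3
  have hx : ‖Gf a b τ‖ ^ 24 ≤ K ^ 24 * |c| * Real.exp (2 * π * τ.im) := by
    unfold Gf
    rw [norm_div, div_pow]
    have h5 : ‖ModularForm.eta τ‖ ^ 24 = ‖ModularForm.discriminant τ‖ := by
      unfold ModularForm.discriminant; rw [norm_pow]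
    rw [h5]
    have h6 : 0 < ‖ModularForm.discriminant τ‖ := norm_pos_iff.2 (ModularForm.discriminant_ne_zero τ)
    rw [div_le_iff₀ h6]
    rw [Real.norm_eq_abs, abs_of_pos (Real.exp_pos _)] at h2
    have h7 : Real.exp (2 * π * τ.im) * Real.exp (-2 * π * τ.im) = 1 := by
      rw [← Real.exp_add]; ring_nf; exact Real.exp_zero
    have h8 : 1 ≤ Real.exp (2 * π * τ.im) * (|c| * ‖ModularForm.discriminant τ‖) := by
      rw [← h7]
      refine mul_le_mul_of_nonneg_left (h2.trans ?_) (Real.exp_pos _).le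
      exact mul_le_mul_of_nonneg_right (le_abs_self c) h6.le
    calc ‖cexp (π * Complex.I * (b : ℂ) ^ 2 * τ) * jacobiTheta₂ ((b : ℂ) * τ + a) τ‖ ^ 24
        ≤ K ^ 24 := pow_le_pow_left₀ (norm_nonneg _) h4 24
      _ = K ^ 24 * 1 := by ring
      _ ≤ K ^ 24 * (Real.exp (2 * π * τ.im) * (|c| * ‖ModularForm.discriminant τ‖)) :=
          mul_le_mul_of_nonneg_left h8 (by positivity)
      _ = _ := by ring
  have hy : ‖Gf a b τ‖ ≤ 1 + ‖Gf a b τ‖ ^ 24 := by
    rcases le_or_gt ‖Gf a b τ‖ 1 with h | h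
    · have : 0 ≤ ‖Gf a b τ‖ ^ 24 := by positivity
      linarith
    · have := le_self_pow₀ h.le (show (24 : ℕ) ≠ 0 by norm_num)
      linarith
  have hz : (1 : ℝ) ≤ Real.exp (2 * π * τ.im) := by
    apply Real.one_le_exp
    have := τ.im_pos
    positivity
  rw [Real.norm_eq_abs, abs_of_pos (Real.exp_pos _)]
  calc ‖Gf a b τ‖ ≤ 1 + ‖Gf a b τ‖ ^ 24 := hy
    _ ≤ 1 * Real.exp (2 * π * τ.im) + K ^ 24 * |c| * Real.exp (2 * π * τ.im) := by linarith
    _ = _ := by ring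

theorem exp_bigO_mono {c d : ℝ} (h : c ≤ d) : (fun τ : ℍ => Real.exp (c * τ.im)) =O[atImInfty]
    fun τ : ℍ => Real.exp (d * τ.im) := by
  refine IsBigO.of_bound 1 (Eventually.of_forall fun τ => ?_)
  rw [Real.norm_eq_abs, Real.norm_eq_abs, abs_of_pos (Real.exp_pos _), abs_of_pos (Real.exp_pos _),
    one_mul]
  refine Real.exp_le_exp.2 ?_
  have := τ.im_pos
  gcongr

theorem suf {r : ℕ} (B : Fin r → ℚ) (hB : Sym B) :
    IsModularFunction (nahmSum (1 : Matrix (Fin r) (Fin r) ℚ) B (CC B)) := by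
  obtain ⟨κ, hκ, hsq⟩ := sq_eq B hB
  obtain ⟨n, hn, hv⟩ := exists_denom B
  choose v hv using hv
  set f := nahmSum (1 : Matrix (Fin r) (Fin r) ℚ) B (CC B) with hf
  have hcont : Continuous f := (sum_one_mdiff B (CC B)).continuous
  have hG : ∀ i, (fun τ : ℍ => Gf 0 (B i : ℝ) τ) = Phi (2 * n) 0 0 (v i) := by
    intro i
    ext τ
    unfold Phi
    rw [hv i]
    simp
  -- the translates
  have htr : ∀ γ : SL(2, ℤ), ∃ g : Fin r → (ℍ → ℂ), (∀ i, g i ∈ PhiSet (2 * n)) ∧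
      ∀ τ : ℍ, f (γ • τ) ^ 2 = κ * ∏ i, g i τ := by
    intro γ
    refine ⟨fun i τ => Phi (2 * n) 0 0 (v i) (γ • τ), fun i =>
      PhiSet_smul n hn γ _ ⟨0, 0, v i, rfl⟩, fun τ => ?_⟩
    rw [hsq (γ • τ)]
    congr 1
    exact Finset.prod_congr rfl fun i _ => congrFun (hG i) (γ • τ)
  have hX2 : {h : ℍ → ℂ | ∃ g : Fin r → (ℍ → ℂ), (∀ i, g i ∈ PhiSet (2 * n)) ∧
      h = fun τ => κ * ∏ i, g i τ}.Finite := by
    have h1 : (Set.pi Set.univ (fun _ : Fin r => PhiSet (2 * n))).Finite :=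
      Set.Finite.pi fun _ => PhiSet_finite _ (by omega)
    refine (h1.image (fun g τ => κ * ∏ i, g i τ)).subset ?_
    rintro _ ⟨g, hg, rfl⟩
    exact ⟨g, fun i _ => hg i, rfl⟩
  refine ⟨?_, sum_one_mdiff B (CC B), ?_⟩
  · refine modular_of_finite _ (finite_sqrt _ hX2) fun γ => ⟨?_, fun τ => sum_one_ne _ _ _, ?_⟩
    · have hγ : Continuous (fun τ : ℍ => γ • τ) :=
        continuous_const_smul (Matrix.SpecialLinearGroup.toGL
          (Matrix.SpecialLinearGroup.map (Int.castRingHom ℝ) γ))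
      exact hcont.comp hγ
    · obtain ⟨g, hg, h⟩ := htr γ
      exact ⟨g, hg, funext h⟩
  · intro γ
    obtain ⟨g, hg, h⟩ := htr γ
    have hgb : ∀ i, ∃ c : ℝ, 0 ≤ c ∧ (g i) =O[atImInfty] fun τ : ℍ => Real.exp (c * τ.im) := by
      intro i
      obtain ⟨k, u, w, hk⟩ := hg i
      obtain ⟨c, hc⟩ := norm_Gf_bound ((u : ℝ) / ((2 * n : ℕ) : ℝ)) ((w : ℝ) / ((2 * n : ℕ) : ℝ))
      refine ⟨max c 0, le_max_right _ _, ?_⟩
      rw [hk]
      exact ((hc.trans (exp_bigO_mono (le_max_left _ _))).const_mul_left _)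
    choose c hc0 hc using hgb
    refine ⟨∑ i, c i, ?_⟩
    have h1 : (fun τ : ℍ => f (γ • τ) ^ 2) =O[atImInfty]
        fun τ : ℍ => Real.exp ((∑ i, c i) * τ.im) := by
      have h2 : (fun τ : ℍ => ∏ i, g i τ) =O[atImInfty] fun τ : ℍ => ∏ i, Real.exp (c i * τ.im) :=
        IsBigO.finsetProd (fun i _ => hc i)
      have h3 : (fun τ : ℍ => ∏ i, Real.exp (c i * τ.im)) =
          fun τ : ℍ => Real.exp ((∑ i, c i) * τ.im) := by
        ext τ; rw [← Real.exp_sum, Finset.sum_mul]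
      rw [h3] at h2
      exact (h2.const_mul_left κ).congr_left fun τ => (h τ).symm
    have hs0 : 0 ≤ ∑ i, c i := Finset.sum_nonneg fun i _ => hc0 i
    obtain ⟨K, hK⟩ := h1.bound
    refine IsBigO.of_bound (1 + |K|) ?_
    filter_upwards [hK] with τ h4
    rw [norm_pow] at h4
    rw [Real.norm_eq_abs, abs_of_pos (Real.exp_pos _)] at h4 ⊢
    have hz : (1 : ℝ) ≤ Real.exp ((∑ i, c i) * τ.im) := by
      apply Real.one_le_exp
      have := τ.im_pos
      positivity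
    have h5 : ‖f (γ • τ)‖ ≤ 1 + ‖f (γ • τ)‖ ^ 2 := by nlinarith [norm_nonneg (f (γ • τ))]
    have h6 := le_abs_self K
    nlinarith

end

end Pool.Agent.R395.Nm
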