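import Pool.Agent.TH825.Nahm.Eta
import Pool.Agent.TH825.Nahm.Jtp

/-! # The functions `G(a,b,τ) = e^{πib²τ} θ(bτ+a, τ)/η(τ)` under `SL(2, ℤ)` -/

namespace Pool.Agent.R395.Nm

open Complex UpperHalfPlane ModularForm
open scoped Real MatrixGroups

noncomputable section

/-- `G(a,b,τ)` -/
def Gf (a b : ℝ) (τ : ℂ) : ℂ :=
  cexp (π * Complex.I * (b : ℂ) ^ 2 * τ) * jacobiTheta₂ ((b : ℂ) * τ + a) τ / ModularForm.eta τ

theorem Gf_add_one_left (a b : ℝ) (τ : ℂ) : Gf (a + 1) b τ = Gf a b τ := by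
  unfold Gf
  rw [← jacobiTheta₂_add_left ((b : ℂ) * τ + a) τ]
  push_cast
  ring_nf

theorem Gf_add_one_right (a b : ℝ) (τ : ℂ) :
    Gf a (b + 1) τ = cexp (-(2 * π * Complex.I * a)) * Gf a b τ := by
  unfold Gf
  have h := jacobiTheta₂_add_left' ((b : ℂ) * τ + a) τ
  have e : ((b + 1 : ℝ) : ℂ) * τ + a = (b : ℂ) * τ + a + τ := by push_cast; ring
  rw [e, h, ← mul_assoc, ← Complex.exp_add, ← mul_div_assoc, ← mul_assoc, ← Complex.exp_add]
  congr 3
  push_cast
  ring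

theorem theta_add_one (z τ : ℂ) : jacobiTheta₂ z (τ + 1) = jacobiTheta₂ (z + 1 / 2) τ := by
  refine tsum_congr (fun n => ?_)
  unfold jacobiTheta₂_term
  have h : cexp (π * Complex.I * (n : ℂ) ^ 2) = cexp (π * Complex.I * n) := by
    rw [Complex.exp_eq_exp_iff_exists_int]
    obtain ⟨k, hk⟩ : ∃ k : ℤ, n ^ 2 = n + 2 * k := by
      rcases Int.even_or_odd n with ⟨m, rfl⟩ | ⟨m, rfl⟩
      · exact ⟨2 * m ^ 2 - m, by ring⟩
      · exact ⟨2 * m ^ 2 + m, by ring⟩
    refine ⟨k, ?_⟩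
    have : (n : ℂ) ^ 2 = n + 2 * k := by exact_mod_cast hk
    rw [this]; ring
  calc cexp (2 * π * Complex.I * n * z + π * Complex.I * n ^ 2 * (τ + 1))
      = cexp (2 * π * Complex.I * n * z + π * Complex.I * n ^ 2 * τ) *
          cexp (π * Complex.I * (n : ℂ) ^ 2) := by rw [← Complex.exp_add]; ring_nf
    _ = cexp (2 * π * Complex.I * n * z + π * Complex.I * n ^ 2 * τ) *
          cexp (π * Complex.I * (n : ℂ)) := by rw [h]
    _ = _ := by rw [← Complex.exp_add]; ring_nf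

theorem eta_add_one (τ : ℂ) :
    ModularForm.eta (τ + 1) = cexp (π * Complex.I / 12) * ModularForm.eta τ := by
  unfold ModularForm.eta
  have h : ∀ n : ℕ, eta_q n (τ + 1) = eta_q n τ := by
    intro n
    rw [eta_q_eq_pow, eta_q_eq_pow, mul_add, Complex.exp_add]
    simp
  rw [tprod_congr (fun n => by rw [h n]), ← mul_assoc]
  congr 1
  unfold Function.Periodic.qParam
  rw [← Complex.exp_add]
  congr 1
  push_cast
  ring

theorem Gf_T (a b : ℝ) (τ : ℂ) : Gf a b (τ + 1) =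
    cexp (π * Complex.I * ((b : ℂ) ^ 2 - 1 / 12)) * Gf (a + b + 1 / 2) b τ := by
  unfold Gf
  rw [theta_add_one, eta_add_one]
  have e : (b : ℂ) * (τ + 1) + a + 1 / 2 = (b : ℂ) * τ + ((a + b + 1 / 2 : ℝ) : ℂ) := by
    push_cast; ring
  rw [e]
  have e2 : cexp (π * Complex.I * (b : ℂ) ^ 2 * (τ + 1)) =
      cexp (π * Complex.I * ((b : ℂ) ^ 2 - 1 / 12)) * cexp (π * Complex.I / 12) *
        cexp (π * Complex.I * (b : ℂ) ^ 2 * τ) := by
    rw [← Complex.exp_add, ← Complex.exp_add]; ring_nf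
  rw [e2]
  have h0 : cexp (π * Complex.I / 12) ≠ 0 := Complex.exp_ne_zero _
  rw [show ∀ X e Y t : ℂ, X * e * Y * t = e * (X * Y * t) by intros; ring,
    mul_div_mul_left _ _ h0]
  ring

theorem cpow_half_eq {τ : ℂ} (hτ : 0 < τ.im) :
    (-Complex.I * τ) ^ (1 / 2 : ℂ) = (Complex.sqrt Complex.I)⁻¹ * Complex.sqrt τ := by
  have h0 : τ ≠ 0 := by rintro rfl; simp at hτ
  have hI : (-Complex.I) ≠ 0 := neg_ne_zero.2 Complex.I_ne_zero
  have harg : 0 < τ.arg := by
    rcases (Complex.arg_nonneg_iff.2 hτ.le).lt_or_eq with h | h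
    · exact h
    · exfalso
      have := (Complex.arg_eq_zero_iff.1 h.symm).2
      linarith
  have hlog : Complex.log (-Complex.I * τ) = Complex.log (-Complex.I) + Complex.log τ := by
    apply Complex.log_mul hI h0
    rw [Complex.arg_neg_I]
    constructor
    · linarith [Real.pi_pos]
    · linarith [Complex.arg_le_pi τ, Real.pi_pos]
  rw [Complex.cpow_def_of_ne_zero (mul_ne_zero hI h0), hlog, Complex.sqrt, Complex.sqrt,
    Complex.cpow_def_of_ne_zero h0, Complex.cpow_def_of_ne_zero Complex.I_ne_zero,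
    ← Complex.exp_neg, ← Complex.exp_add, Complex.log_neg_I, Complex.log_I]
  congr 1
  ring

theorem Gf_S (a b : ℝ) {τ : ℂ} (hτ : 0 < τ.im) : Gf a b (-1 / τ) =
    cexp (-(2 * π * Complex.I * (a * b))) * Gf (-b) a τ := by
  have h0 : τ ≠ 0 := by rintro rfl; simp at hτ
  have h1 := jacobiTheta₂_functional_equation ((a : ℂ) * τ + ((-b : ℝ) : ℂ)) τ
  have h2 : ModularForm.eta (-1 / τ) = (Complex.sqrt Complex.I)⁻¹ * (Complex.sqrt τ * ModularForm.eta τ) := by
    have := ModularForm.eta_comp_eq_csqrt_I_inv (show τ ∈ upperHalfPlaneSet from hτ)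
    simpa using this
  unfold Gf
  have e1 : ((a : ℂ) * τ + ((-b : ℝ) : ℂ)) / τ = (b : ℂ) * (-1 / τ) + a := by
    field_simp
    push_cast
    ring
  rw [e1, cpow_half_eq hτ] at h1
  have hs : Complex.sqrt τ ≠ 0 := by simp [Complex.sqrt, h0]
  have hi : Complex.sqrt Complex.I ≠ 0 := by simp [Complex.sqrt]
  have he : ModularForm.eta τ ≠ 0 := ModularForm.eta_ne_zero hτ
  rw [h2, h1]
  have e2 : cexp (-(2 * π * Complex.I * (a * b))) * (cexp (π * Complex.I * (a : ℂ) ^ 2 * τ) *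
      (cexp (-π * Complex.I * ((a : ℂ) * τ + ((-b : ℝ) : ℂ)) ^ 2 / τ))) =
      cexp (π * Complex.I * (b : ℂ) ^ 2 * (-1 / τ)) := by
    rw [← Complex.exp_add, ← Complex.exp_add]
    congr 1
    push_cast
    field_simp
    ring
  rw [← e2]
  field_simp

end

end Pool.Agent.R395.Nm
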